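import Pool.Agent.helper9.HB49.Big.Theta

set_option autoImplicit false

/-! # Connected parts of the contraction -/

open Set Matroid

namespace Pool.Agent.helper9.HB49

variable {α : Type*} {M : Matroid α}

section gen

variable [M.Finite]

theorem nl_le_sdiff {Y : Set α} (hY : Y ⊆ M.E) (e : α) : nl M Y ≤ nl M (Y \ {e}) + 1 := by
  by_cases he : e ∈ Y
  · have h1 := nl_add hY
    have h2 := nl_add (sdiff_subset.trans hY : Y \ {e} ⊆ M.E)
    rw [ncard_sdiff_singleton_of_mem he] at h2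
    have h3 := rk_mono (M := M) (sdiff_subset : Y \ {e} ⊆ Y)
    have h4 : 1 ≤ Y.ncard := (ncard_pos (fin_of Y hY)).2 ⟨e, he⟩
    omega
  · rw [sdiff_singleton_eq_self he]
    omega

/-- all the circuits in `Y` lie in `Z` -/
theorem nl_le_of_circuits {Y Z : Set α} (hY : Y ⊆ M.E) (hZY : Z ⊆ Y)
    (h : ∀ C, M.IsCircuit C → C ⊆ Y → C ⊆ Z) : nl M Y ≤ nl M Z := by
  obtain ⟨I, hI⟩ := M.exists_isBasis Z (hZY.trans hY)
  have h1 : M.Indep (I ∪ (Y \ Z)) := by
    by_contra hcon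
    have hdep : M.Dep (I ∪ (Y \ Z)) :=
      ⟨hcon, union_subset hI.indep.subset_ground (sdiff_subset.trans hY)⟩
    obtain ⟨C, hCs, hC⟩ := hdep.exists_isCircuit_subset
    have h2 : C ⊆ Y := hCs.trans (union_subset (hI.subset.trans hZY) sdiff_subset)
    have h3 := h C hC h2
    refine hC.not_indep (hI.indep.subset fun f hf => ?_)
    exact (hCs hf).resolve_right fun h4 => h4.2 (h3 hf)
  have hYf := fin_of Y hY
  have h2 := indep_ncard_le h1 (union_subset (hI.subset.trans hZY) sdiff_subset : _ ⊆ Y)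
  rw [ncard_union_eq (disjoint_sdiff_right.mono_left hI.subset) (hYf.subset (hI.subset.trans hZY))
    hYf.sdiff] at h2
  have h3 : rk M Z = I.ncard := by
    rw [← (indep_iff_rk (fin_of I hI.indep.subset_ground)).1 hI.indep, rk, rk, hI.eRk_eq_eRk]
  have h4 := ncard_sdiff_add_ncard_of_subset hZY hYf
  have h5 := nl_add hY
  have h6 := nl_add (hZY.trans hY)
  omega

end gen

variable [M.Finite] {k : ℕ} {F : Set α}

/-- the local connectivity of `Y` and `F` -/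
noncomputable def nu (M : Matroid α) (F Y : Set α) : ℕ := nl (M ／ F) Y - nl M Y

theorem rk_contract_le (h : Big M k F) {Y : Set α} (hY : Y ⊆ (M ／ F).E) :
    rk (M ／ F) Y ≤ rk M Y := by
  obtain ⟨hYE, hYF⟩ := contract_sub hY
  have h1 := rk_contract h hYE hYF
  have h2 := rk_submod (M := M) Y F ∅ (Y ∪ F) (empty_subset _) subset_rfl
  rw [h.unif.rk_eq] at h2
  omega

theorem nu_add (h : Big M k F) {Y : Set α} (hY : Y ⊆ (M ／ F).E) :
    nu M F Y + nl M Y = nl (M ／ F) Y := by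
  obtain ⟨hYE, hYF⟩ := contract_sub hY
  have h1 := rk_contract_le h hY
  have h2 := nl_add (M := M ／ F) hY
  have h3 := nl_add hYE
  rw [nu]
  omega

theorem nu_mono (h : Big M k F) {Y Y' : Set α} (hYY : Y ⊆ Y') (hY : Y' ⊆ (M ／ F).E) :
    nu M F Y ≤ nu M F Y' := by
  obtain ⟨hYE, hYF⟩ := contract_sub hY
  have h1 := rk_submod (M := M) (Y ∪ F) Y' Y (Y' ∪ F) (subset_inter subset_union_left hYY)
    (union_subset subset_union_right (subset_union_right.trans subset_union_left))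
  have h2 := rk_contract h hYE hYF
  have h3 := rk_contract h (hYY.trans hYE) (hYF.mono_left hYY)
  have h4 := nu_add h hY
  have h5 := nu_add h (hYY.trans hY)
  have h6 := nl_add (M := M ／ F) hY
  have h7 := nl_add (M := M ／ F) (hYY.trans hY)
  have h8 := nl_add hYE
  have h9 := nl_add (hYY.trans hYE)
  omega

/-- any two elements of `Z` lie in a common circuit inside `Z` -/
def Con (N : Matroid α) (Z : Set α) : Prop :=
  ∀ u ∈ Z, ∀ v ∈ Z, u ≠ v → ∃ C, N.IsCircuit C ∧ C ⊆ Z ∧ u ∈ C ∧ v ∈ C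

theorem con_le_one (h : Big M k F) {K : Set α} (hK : K ⊆ (M ／ F).E) (hcon : Con (M ／ F) K) :
    nu M F K ≤ 1 := by
  by_contra hK2
  push Not at hK2
  have hKE := (contract_sub hK).1
  have sub : ∀ {Y : Set α}, Y ⊆ K → Y ⊆ (M ／ F).E ∧ Y ⊆ M.E := fun hY =>
    ⟨hY.trans hK, hY.trans hKE⟩
  -- an N-circuit is M-independent or an M-circuit
  have hMcirc : ∀ C, (M ／ F).IsCircuit C → C ⊆ K → nu M F C = 0 → M.IsCircuit C := by
    intro C hC hCK h0
    have h1 := nu_add h (hCK.trans hK)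
    rw [h0, nl_circuit hC, zero_add] at h1
    refine isCircuit_of (sub hCK).2 (fin_of C (sub hCK).2) ?_ fun e he => ?_
    · have := nl_add (sub hCK).2
      omega
    · exact (hC.sdiff_singleton_indep he).of_contract
  -- step a
  obtain ⟨P, ⟨hPK, hP1⟩, hPmin⟩ := exists_min (β := Set α) (fun X => X.ncard)
    (P := fun X => X ⊆ K ∧ 1 ≤ nu M F X) ⟨K, subset_rfl, by omega⟩
  have hPf := fin_of P (sub hPK).2
  have hPe : ∀ e ∈ P, nu M F (P \ {e}) = 0 := by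
    intro e he
    by_contra hne
    have h1 := hPmin (P \ {e}) ⟨sdiff_subset.trans hPK, by omega⟩
    rw [ncard_sdiff_singleton_of_mem he] at h1
    have h2 : 1 ≤ P.ncard := (ncard_pos hPf).2 ⟨e, he⟩
    omega
  have hPM : nl M P = 0 := by
    by_contra hne
    obtain ⟨C₀, hC₀, hC₀P⟩ := exists_circuit_of_nl (sub hPK).2 (Nat.one_le_iff_ne_zero.2 hne)
    obtain ⟨e, he⟩ := hC₀.nonempty
    have h1 := nl_sdiff_of_mem_closure (sub hPK).2 (hC₀P he)
      (M.closure_subset_closure (sdiff_subset_sdiff_left hC₀P)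
        (hC₀.mem_closure_sdiff_singleton_of_mem he))
    have h2 := nl_le_sdiff (M := M ／ F) (sub hPK).1 e
    have h3 := nu_add h (sub hPK).1
    have h4 := nu_add h (sub (sdiff_subset.trans hPK : P \ {e} ⊆ K)).1
    have h5 := hPe e (hC₀P he)
    omega
  have hPC : (M ／ F).IsCircuit P := by
    refine isCircuit_of (sub hPK).1 hPf ?_ fun e he => ?_
    · have h1 := nu_add h (sub hPK).1
      have h2 := nl_add (M := M ／ F) (sub hPK).1
      omega
    · rw [← nl_eq_zero_iff (sub (sdiff_subset.trans hPK)).1,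
        ← nu_add h (sub (sdiff_subset.trans hPK : P \ {e} ⊆ K)).1, hPe e he, zero_add]
      have := nl_mono (M := M) (sdiff_subset : P \ {e} ⊆ P) (sub hPK).2
      omega
  have hPnu : nu M F P = 1 := by
    have h1 := nu_add h (sub hPK).1
    rw [nl_circuit hPC] at h1
    omega
  -- step b
  obtain ⟨Z, ⟨hZK, hPZ, hZ1, hZc⟩, hZmax⟩ := exists_max (β := Set α) (fun Z => Z.ncard)
    (P := fun Z => Z ⊆ K ∧ P ⊆ Z ∧ nu M F Z = 1 ∧ Con (M ／ F) Z) K.ncard
    (fun Z hZ => ncard_le_ncard hZ.1 (fin_of K hKE))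
    ⟨P, hPK, subset_rfl, hPnu, fun u hu v hv _ => ⟨P, hPC, subset_rfl, hu, hv⟩⟩
  have hZf := fin_of Z (sub hZK).2
  -- step c
  obtain ⟨z, hz⟩ := hPC.nonempty
  obtain ⟨y, hyK, hyZ⟩ : ∃ y ∈ K, y ∉ Z := by
    by_contra hc
    push Not at hc
    have : Z = K := subset_antisymm hZK hc
    rw [this] at hZ1
    omega
  obtain ⟨D₀, ⟨hD₀, hD₀K, hD₀Z, hD₀Z'⟩, hD₀min⟩ := exists_min (β := Set α)
    (fun D => (D \ Z).ncard)
    (P := fun D => (M ／ F).IsCircuit D ∧ D ⊆ K ∧ (D ∩ Z).Nonempty ∧ ¬ D ⊆ Z) (by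
      obtain ⟨D, hD, hDK, hzD, hyD⟩ := hcon z (hPK hz) y hyK (fun h => hyZ (h ▸ hPZ hz))
      exact ⟨D, hD, hDK, ⟨z, hzD, hPZ hz⟩, fun h => hyZ (h hyD)⟩)
  set q := D₀ \ Z with hq
  have hqK : q ⊆ K := sdiff_subset.trans hD₀K
  have hqf : q.Finite := fin_of q (sub hqK).2
  have hZqK : Z ∪ q ⊆ K := union_subset hZK hqK
  have hqne : q.Nonempty := by
    obtain ⟨f, hf, hfZ⟩ := not_subset.1 hD₀Z'
    exact ⟨f, hf, hfZ⟩
  have hqZ : ∀ f ∈ q, f ∉ Z := fun f hf => hf.2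
  have hD₀q : D₀ ⊆ Z ∪ q := fun f hf => by
    by_cases hfZ : f ∈ Z
    · exact Or.inl hfZ
    · exact Or.inr ⟨hf, hfZ⟩
  have c1 : ∀ D, (M ／ F).IsCircuit D → D ⊆ Z ∪ q → ¬ D ⊆ Z → q ⊆ D := by
    intro D hD hDs hDZ
    have h1 : D \ Z ⊆ q := fun f hf => (hDs hf.1).resolve_left hf.2
    have h2 : (D ∩ Z).Nonempty := by
      by_contra hne
      rw [not_nonempty_iff_eq_empty] at hne
      have h3 : D ⊆ D₀ := by
        intro f hf
        refine (h1 ⟨hf, fun hfZ => ?_⟩).1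
        have : f ∈ D ∩ Z := ⟨hf, hfZ⟩
        rw [hne] at this
        exact this
      have h4 := hD.eq_of_subset_isCircuit hD₀ h3
      rw [h4] at hne
      exact hD₀Z.ne_empty hne
    have h3 := hD₀min D ⟨hD, hDs.trans hZqK, h2, hDZ⟩
    have h4 := eq_of_subset_of_ncard_le h1 h3 hqf
    rw [← h4]
    exact sdiff_subset
  have c2 : Con (M ／ F) (Z ∪ q) := by
    obtain ⟨d, hdD, hdZ⟩ := hD₀Z
    have hmix : ∀ u ∈ Z, ∀ v ∈ q, ∃ C, (M ／ F).IsCircuit C ∧ C ⊆ Z ∪ q ∧ u ∈ C ∧ v ∈ C := by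
      intro u hu v hv
      by_cases hud : u = d
      · exact ⟨D₀, hD₀, hD₀q, hud ▸ hdD, hv.1⟩
      · obtain ⟨C, hC, hCZ, huC, hdC⟩ := hZc u hu d hdZ hud
        exact circuit_trans (M ／ F) (Z ∪ q) (v := d)
          ⟨C, hC, hCZ.trans subset_union_left, huC, hdC⟩ ⟨D₀, hD₀, hD₀q, hdD, hv.1⟩
    rintro u (hu | hu) v (hv | hv) huv
    · obtain ⟨C, hC, hCZ, h1, h2⟩ := hZc u hu v hv huv
      exact ⟨C, hC, hCZ.trans subset_union_left, h1, h2⟩
    · exact hmix u hu v hv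
    · obtain ⟨C, hC, hCZ, h1, h2⟩ := hmix v hv u hu
      exact ⟨C, hC, hCZ, h2, h1⟩
    · exact ⟨D₀, hD₀, hD₀q, hu.1, hv.1⟩
  have c3 : 2 ≤ nu M F (Z ∪ q) := by
    by_contra hlt
    have h1 := nu_mono h (subset_union_left : Z ⊆ Z ∪ q) (sub hZqK).1
    have h2 := hZmax (Z ∪ q) ⟨hZqK, hPZ.trans subset_union_left, by omega, c2⟩
    try simp only at h2
    have h3 : Z ∪ q = Z :=
      (eq_of_subset_of_ncard_le subset_union_left h2 (hZf.union hqf)).symm
    obtain ⟨f, hf⟩ := hqne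
    exact hqZ f hf (h3 ▸ Or.inr hf)
  have c4 : nl (M ／ F) (Z ∪ q) ≤ nl (M ／ F) Z + 1 := by
    obtain ⟨e, he⟩ := hqne
    have h1 := nl_le_sdiff (M := M ／ F) (sub hZqK).1 e
    have h2 := nl_le_of_circuits (M := M ／ F) (Y := (Z ∪ q) \ {e}) (Z := Z)
      (sub (sdiff_subset.trans hZqK)).1 (fun f hf => ⟨Or.inl hf, fun h => hqZ e he (h ▸ hf)⟩)
      (fun C hC hCs => by
        by_contra hne
        exact (hCs (c1 C hC (hCs.trans sdiff_subset) hne he)).2 rfl)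
    omega
  have c5 : nl M (Z ∪ q) ≤ nl M Z := by
    have h1 := nu_add h (sub hZqK).1
    have h2 := nu_add h (sub hZK).1
    omega
  have c6 : ∀ C, M.IsCircuit C → C ⊆ Z ∪ q → C ⊆ Z := by
    intro C hC hCs f hf
    by_contra hfZ
    have hfq : f ∈ q := (hCs hf).resolve_left hfZ
    have h1 := nl_sdiff_of_mem_closure (sub hZqK).2 (hCs hf)
      (M.closure_subset_closure (sdiff_subset_sdiff_left hCs)
        (hC.mem_closure_sdiff_singleton_of_mem hf))
    have h2 := nl_mono (M := M) (Y := Z) (Y' := (Z ∪ q) \ {f})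
      (fun g hg => ⟨Or.inl hg, fun h => hfZ (h ▸ hg)⟩) (sub (sdiff_subset.trans hZqK)).2
    omega
  -- step d
  have d1 : ∀ d ∈ Z, ∃ C, (M ／ F).IsCircuit C ∧ C ⊆ Z ∧ d ∈ C ∧ nu M F C = 1 := by
    intro d hdZ
    by_cases hdP : d ∈ P
    · exact ⟨P, hPC, hPZ, hdP, hPnu⟩
    by_contra hno
    push Not at hno
    have hno' : ∀ C, (M ／ F).IsCircuit C → C ⊆ Z → d ∈ C → nu M F C = 0 := by
      intro C hC hCZ hdC
      have h1 := nu_add h (sub (hCZ.trans hZK)).1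
      rw [nl_circuit hC] at h1
      have h2 := hno C hC hCZ hdC
      omega
    obtain ⟨D, ⟨hD, hDZ, hdD, hDP⟩, hDmin⟩ := exists_min (β := Set α)
      (fun D => (D ∪ P).ncard)
      (P := fun D => (M ／ F).IsCircuit D ∧ D ⊆ Z ∧ d ∈ D ∧ (D ∩ P).Nonempty) (by
        obtain ⟨D, hD, hDZ, hdD, hzD⟩ := hZc d hdZ z (hPZ hz) (fun h => hdP (h ▸ hz))
        exact ⟨D, hD, hDZ, hdD, ⟨z, hzD, hz⟩⟩)
    try simp only at hDmin
    have hUZ : D ∪ P ⊆ Z := union_subset hDZ hPZ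
    have hUf : (D ∪ P).Finite := hZf.subset hUZ
    have hUK : D ∪ P ⊆ K := hUZ.trans hZK
    have hunq : ∀ C, (M ／ F).IsCircuit C → C ⊆ (D ∪ P) \ {d} → C ⊆ P := by
      intro C hC hCs
      by_contra hCP
      obtain ⟨e, heC, heP⟩ := not_subset.1 hCP
      have heD : e ∈ D := (hCs heC).1.resolve_right heP
      have hdC : d ∉ C := fun h => (hCs h).2 rfl
      obtain ⟨D₁, hD₁s, hD₁, hdD₁⟩ := hD.strong_elimination hC heD heC hdD hdC
      have h1 : D₁ ∪ P ⊆ (D ∪ P) \ {e} := by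
        refine union_subset (fun f hf => ?_) (fun f hf => ⟨Or.inr hf, fun h => heP (h ▸ hf)⟩)
        have h2 := hD₁s hf
        refine ⟨?_, h2.2⟩
        rcases h2.1 with h3 | h3
        · exact Or.inl h3
        · exact (hCs h3).1
      have h2 : (D₁ ∩ P).Nonempty := by
        by_contra hne
        rw [not_nonempty_iff_eq_empty] at hne
        have h3 : D₁ ⊆ D := by
          intro f hf
          refine (h1 (Or.inl hf)).1.resolve_right fun hfP => ?_
          have : f ∈ D₁ ∩ P := ⟨hf, hfP⟩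
          rw [hne] at this
          exact this
        have h4 := hD₁.eq_of_subset_isCircuit hD h3
        exact (hD₁s (h4.symm ▸ heD)).2 rfl
      have h3 := hDmin D₁ ⟨hD₁, fun f hf => hUZ (h1 (Or.inl hf)).1, hdD₁, h2⟩
      have h4 := ncard_le_ncard h1 hUf.sdiff
      rw [ncard_sdiff_singleton_of_mem (mem_union_left P heD)] at h4
      have h5 : 1 ≤ (D ∪ P).ncard := (ncard_pos hUf).2 ⟨e, Or.inl heD⟩
      omega
    have hDP' : D ≠ P := fun h => hdP (h ▸ hdD)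
    have h2N := two_le_nl (M := M ／ F) (sub hUK).1 hD hPC hDP' subset_union_left
      subset_union_right
    obtain ⟨f₀, hf₀D, hf₀P⟩ := hDP
    have h3N := nl_le_sdiff (M := M ／ F) (sub hUK).1 f₀
    obtain ⟨C₂, hC₂, hC₂s⟩ := exists_circuit_of_nl (M := M ／ F) (Y := (D ∪ P) \ {f₀})
      (sub (sdiff_subset.trans hUK)).1 (by omega)
    have hdC₂ : d ∈ C₂ := by
      by_contra hdC₂
      have h4 := hunq C₂ hC₂ (fun f hf => ⟨(hC₂s hf).1, fun h => hdC₂ (h ▸ hf)⟩)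
      have h5 := hC₂.eq_of_subset_isCircuit hPC h4
      exact (hC₂s (h5.symm ▸ hf₀P)).2 rfl
    have hC₂D : D ≠ C₂ := fun h => (hC₂s (h ▸ hf₀D)).2 rfl
    have hC₂Z : C₂ ⊆ Z := (hC₂s.trans sdiff_subset).trans hUZ
    have m1 := hMcirc D hD (hDZ.trans hZK) (hno' D hD hDZ hdD)
    have m2 := hMcirc C₂ hC₂ (hC₂Z.trans hZK) (hno' C₂ hC₂ hC₂Z hdC₂)
    have h2M := two_le_nl (sub hUK).2 m1 m2 hC₂D subset_union_left (hC₂s.trans sdiff_subset)
    have h4 := nl_le_sdiff (M := M ／ F) (sub hUK).1 d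
    have h5 := nl_le_of_circuits (M := M ／ F) (Y := (D ∪ P) \ {d}) (Z := P)
      (sub (sdiff_subset.trans hUK)).1
      (fun f hf => ⟨Or.inr hf, fun h => hdP (h ▸ hf)⟩) hunq
    rw [nl_circuit hPC] at h5
    have h6 := nu_mono h (subset_union_right : P ⊆ D ∪ P) (sub hUK).1
    have h7 := nu_add h (sub hUK).1
    omega
  -- step e
  obtain ⟨⟨C, D⟩, ⟨hC, hD, hCZ, hC1, hDs, hDZ, hCD⟩, hmin⟩ :=
    exists_min (β := Set α × Set α) (fun q => (q.1 ∪ q.2).ncard)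
    (P := fun r => (M ／ F).IsCircuit r.1 ∧ (M ／ F).IsCircuit r.2 ∧ r.1 ⊆ Z ∧ nu M F r.1 = 1 ∧
      r.2 ⊆ Z ∪ q ∧ ¬ r.2 ⊆ Z ∧ (r.1 ∩ r.2).Nonempty) (by
      obtain ⟨d, hdD, hdZ⟩ := hD₀Z
      obtain ⟨C, hC, hCZ, hdC, hC1⟩ := d1 d hdZ
      exact ⟨⟨C, D₀⟩, hC, hD₀, hCZ, hC1, hD₀q, hD₀Z', ⟨d, hdC, hdD⟩⟩)
  simp only at hC hD hCZ hC1 hDs hDZ hCD hmin
  have hUs : C ∪ D ⊆ Z ∪ q := union_subset (hCZ.trans subset_union_left) hDs
  have hUK : C ∪ D ⊆ K := hUs.trans hZqK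
  have hUf : (C ∪ D).Finite := fin_of _ (sub hUK).2
  have hqD := c1 D hD hDs hDZ
  obtain ⟨f, hf⟩ := hqne
  have e1 : ∀ C', (M ／ F).IsCircuit C' → C' ⊆ C ∪ (D ∩ Z) → C' ⊆ C := by
    intro C' hC' hC's
    by_contra hne
    obtain ⟨e, he, heC⟩ := not_subset.1 hne
    have heD : e ∈ D := ((hC's he).resolve_left heC).1
    have hC'Z : C' ⊆ Z := hC's.trans (union_subset hCZ inter_subset_right)
    have hfC' : f ∉ C' := fun h => hqZ f hf (hC'Z h)
    obtain ⟨D₁, hD₁s, hD₁, hfD₁⟩ := hD.strong_elimination hC' heD he (hqD hf) hfC'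
    have h1 : C ∪ D₁ ⊆ (C ∪ D) \ {e} := by
      refine union_subset (fun g hg => ⟨Or.inl hg, fun h => heC (h ▸ hg)⟩) (fun g hg => ?_)
      have h2 := hD₁s hg
      refine ⟨?_, h2.2⟩
      rcases h2.1 with h3 | h3
      · exact Or.inr h3
      · rcases hC's h3 with h4 | h4
        · exact Or.inl h4
        · exact Or.inr h4.1
    have h2 : (C ∩ D₁).Nonempty := by
      by_contra hne'
      rw [not_nonempty_iff_eq_empty] at hne'
      have h3 : D₁ ⊆ D := by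
        intro g hg
        refine (h1 (Or.inr hg)).1.resolve_left fun hgC => ?_
        have : g ∈ C ∩ D₁ := ⟨hgC, hg⟩
        rw [hne'] at this
        exact this
      have h4 := hD₁.eq_of_subset_isCircuit hD h3
      exact (hD₁s (h4.symm ▸ heD)).2 rfl
    have h3 := hmin ⟨C, D₁⟩ ⟨hC, hD₁, hCZ, hC1, fun g hg => hUs (h1 (Or.inr hg)).1,
      fun h => hqZ f hf (h hfD₁), h2⟩
    try simp only at h3
    have h4 := ncard_le_ncard h1 hUf.sdiff
    rw [ncard_sdiff_singleton_of_mem (mem_union_right C heD)] at h4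
    have h5 : 1 ≤ (C ∪ D).ncard := (ncard_pos hUf).2 ⟨e, Or.inr heD⟩
    omega
  have hCDne : C ≠ D := fun h => hDZ (h ▸ hCZ)
  have hVZ : C ∪ (D ∩ Z) ⊆ Z := union_subset hCZ inter_subset_right
  have e2 : nl (M ／ F) (C ∪ (D ∩ Z)) ≤ 1 := by
    have h1 := nl_le_of_circuits (M := M ／ F) (sub (hVZ.trans hZK)).1 subset_union_left e1
    rwa [nl_circuit hC] at h1
  have e3 : nl (M ／ F) (C ∪ D) = 2 := by
    have h1 := two_le_nl (M := M ／ F) (sub hUK).1 hC hD hCDne subset_union_left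
      subset_union_right
    have h2 := nl_le_sdiff (M := M ／ F) (sub hUK).1 f
    have h3 := nl_le_of_circuits (M := M ／ F) (Y := (C ∪ D) \ {f}) (Z := C)
      (sub (sdiff_subset.trans hUK)).1
      (fun g hg => ⟨Or.inl hg, fun h => hqZ f hf (hCZ (h ▸ hg))⟩) (fun C' hC' hC's => by
        refine e1 C' hC' fun g hg => ?_
        have hC'Z : C' ⊆ Z := by
          by_contra hne
          exact (hC's (c1 C' hC' ((hC's.trans sdiff_subset).trans hUs) hne hf)).2 rfl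
        rcases (hC's hg).1 with h4 | h4
        · exact Or.inl h4
        · exact Or.inr ⟨h4, hC'Z hg⟩)
    rw [nl_circuit hC] at h3
    omega
  have e4 : M.Indep (C ∪ D) := by
    by_contra hcon'
    obtain ⟨C₀, hC₀, hC₀s⟩ := exists_circuit_of_nl (M := M) (sub hUK).2
      (nl_pos_of_dep (sub hUK).2 hcon')
    have h1 := c6 C₀ hC₀ (hC₀s.trans hUs)
    have h2 : C₀ ⊆ C ∪ (D ∩ Z) := by
      intro g hg
      rcases hC₀s hg with h3 | h3
      · exact Or.inl h3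
      · exact Or.inr ⟨h3, h1 hg⟩
    have h3 : (M ／ F).Dep C₀ :=
      ⟨fun h => hC₀.not_indep h.of_contract, (h2.trans hVZ).trans (sub hZK).1⟩
    obtain ⟨C', hC's, hC'⟩ := h3.exists_isCircuit_subset
    have h4 := e1 C' hC' (hC's.trans h2)
    have h5 := hC'.eq_of_subset_isCircuit hC h4
    have h6 : C ⊆ C₀ := h5 ▸ hC's
    have h7 := nu_mono h h6 ((h2.trans hVZ).trans (sub hZK).1)
    have h8 := nu_add h (Y := C₀) ((h2.trans hVZ).trans (sub hZK).1)
    have h9 := nl_mono (M := M ／ F) h2 (sub (hVZ.trans hZK)).1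
    rw [nl_circuit hC₀] at h8
    omega
  exact Theta h e4 (contract_sub (sub hUK).1).2 hC hD hCDne hCD rfl e3

end Pool.Agent.helper9.HB49
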