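import Pool.Agent.helper9.HB49.Big.Unif

set_option autoImplicit false

/-! # Circuits of the contraction of a uniform flat -/

open Set Matroid

namespace Pool.Agent.helper9.HB49

variable {α : Type*} {M : Matroid α}

/-- the nullity -/
noncomputable def nl (M : Matroid α) (Y : Set α) : ℕ := Y.ncard - rk M Y

section nl

variable [M.Finite]

theorem nl_add {Y : Set α} (hY : Y ⊆ M.E) : nl M Y + rk M Y = Y.ncard := by
  have := rk_le_ncard (M := M) (fin_of Y hY)
  rw [nl]
  omega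

theorem nl_mono {Y Y' : Set α} (h : Y ⊆ Y') (hY' : Y' ⊆ M.E) : nl M Y ≤ nl M Y' := by
  have hf := fin_of Y' hY'
  have h1 := rk_submod (M := M) Y (Y' \ Y) ∅ Y' (empty_subset _) (by rw [union_sdiff_self]; exact subset_union_right)
  have h2 := rk_le_ncard (M := M) (hf.sdiff (t := Y))
  have h3 := ncard_sdiff_add_ncard_of_subset h hf
  have h4 := nl_add (h.trans hY')
  have h5 := nl_add hY'
  omega

theorem nl_eq_zero_iff {Y : Set α} (hY : Y ⊆ M.E) : nl M Y = 0 ↔ M.Indep Y := by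
  rw [indep_iff_rk (fin_of Y hY)]
  have := nl_add hY
  omega

theorem nl_circuit {C : Set α} (hC : M.IsCircuit C) : nl M C = 1 := by
  have h1 := circuit_rk hC
  have h2 := nl_add hC.subset_ground
  omega

theorem nl_pos_of_dep {Y : Set α} (hY : Y ⊆ M.E) (h : ¬ M.Indep Y) : 1 ≤ nl M Y := by
  by_contra hcon
  exact h ((nl_eq_zero_iff hY).1 (by omega))

theorem rk_insert_le (Y : Set α) (e : α) : rk M (insert e Y) ≤ rk M Y + 1 := by
  have h1 := rk_submod (M := M) {e} Y ∅ (insert e Y) (empty_subset _) (by rw [singleton_union])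
  have h2 := rk_le_ncard (M := M) (finite_singleton e)
  rw [ncard_singleton] at h2
  omega

theorem rk_closure (Y : Set α) : rk M (M.closure Y) = rk M Y := by rw [rk, rk, M.eRk_closure_eq]

/-- an element of the closure of the rest does not change the rank -/
theorem rk_sdiff_of_mem_closure {Y : Set α} (hY : Y ⊆ M.E) {e : α}
    (h : e ∈ M.closure (Y \ {e})) : rk M (Y \ {e}) = rk M Y := by
  refine le_antisymm (rk_mono sdiff_subset) ?_
  rw [← rk_closure (Y \ {e})]
  refine rk_mono fun f hf => ?_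
  by_cases hfe : f = e
  · rw [hfe]
    exact h
  · exact M.subset_closure _ (sdiff_subset.trans hY) ⟨hf, hfe⟩

theorem nl_sdiff_of_mem_closure {Y : Set α} (hY : Y ⊆ M.E) {e : α} (he : e ∈ Y)
    (h : e ∈ M.closure (Y \ {e})) : nl M (Y \ {e}) + 1 = nl M Y := by
  have h1 := rk_sdiff_of_mem_closure hY h
  have h2 := nl_add hY
  have h3 := nl_add (sdiff_subset.trans hY : Y \ {e} ⊆ M.E)
  rw [ncard_sdiff_singleton_of_mem he] at h3
  have h4 : 1 ≤ Y.ncard := (ncard_pos (fin_of Y hY)).2 ⟨e, he⟩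
  have h5 := rk_le_ncard (M := M) ((fin_of Y hY).sdiff (t := {e}))
  rw [ncard_sdiff_singleton_of_mem he] at h5
  omega

/-- two distinct circuits: nullity at least two -/
theorem two_le_nl {Y C C' : Set α} (hY : Y ⊆ M.E) (hC : M.IsCircuit C) (hC' : M.IsCircuit C')
    (hne : C ≠ C') (hCY : C ⊆ Y) (hCY' : C' ⊆ Y) : 2 ≤ nl M Y := by
  obtain ⟨e, he, he'⟩ : ∃ e ∈ C, e ∉ C' := by
    by_contra hcon
    push Not at hcon
    exact hne (hC.eq_of_subset_isCircuit hC' hcon)
  have h1 : e ∈ M.closure (Y \ {e}) :=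
    M.closure_subset_closure (sdiff_subset_sdiff_left hCY)
      (hC.mem_closure_sdiff_singleton_of_mem he)
  have h2 := nl_sdiff_of_mem_closure hY (hCY he) h1
  have h3 : C' ⊆ Y \ {e} := fun f hf => ⟨hCY' hf, fun h => he' (h ▸ hf)⟩
  have h4 := nl_mono (M := M) h3 (sdiff_subset.trans hY)
  rw [nl_circuit hC'] at h4
  omega

/-- nullity at most one plus a circuit through every element: a circuit -/
theorem exists_circuit_of_nl {Y : Set α} (hY : Y ⊆ M.E) (h : 1 ≤ nl M Y) :
    ∃ C, M.IsCircuit C ∧ C ⊆ Y := by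
  have h1 : M.Dep Y := ⟨fun hI => by rw [(nl_eq_zero_iff hY).2 hI] at h; omega, hY⟩
  obtain ⟨C, hCY, hC⟩ := h1.exists_isCircuit_subset
  exact ⟨C, hC, hCY⟩

end nl

/-! ### the contraction -/

/-- the standing hypotheses -/
structure Big (M : Matroid α) (k : ℕ) (F : Set α) : Prop where
  hM : CircuitsHilbert M
  unif : UnifOn M k F
  flat : M.closure F = F
  hk : 2 ≤ k
  hc : k + 2 ≤ F.ncard
  hc' : 2 * k ≤ F.ncard + 1

section cont

variable [M.Finite] {k : ℕ} {F : Set α}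

theorem rk_contract (h : Big M k F) {Y : Set α} (hY : Y ⊆ M.E) (hYF : Disjoint Y F) :
    rk (M ／ F) Y + k = rk M (Y ∪ F) := by
  obtain ⟨I, hI⟩ := M.exists_isBasis F h.unif.sub
  have hIk : I.ncard = k := by
    rw [← (indep_iff_rk (fin_of I hI.indep.subset_ground)).1 hI.indep, ← h.unif.rk_eq]
    rw [rk, rk, hI.eRk_eq_eRk]
  have hYN : Y ⊆ (M ／ F).E := by
    rw [contract_ground]
    exact subset_sdiff.2 ⟨hY, hYF⟩
  obtain ⟨J, hJ⟩ := (M ／ F).exists_isBasis Y hYN
  have hJY : J ⊆ Y := hJ.subset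
  have hJF : Disjoint J F := hYF.mono_left hJY
  have h1 : (M ／ F).Indep J := hJ.indep
  have h2 : M.Indep (J ∪ I) := (hI.contract_indep_iff.1 h1).1
  have h3 : rk (M ／ F) Y = J.ncard := by
    rw [← (indep_iff_rk (M := M ／ F) (fin_of J (hJ.indep.subset_ground))).1 h1, rk, rk,
      hJ.eRk_eq_eRk]
  have h4 : (J ∪ I).ncard = J.ncard + I.ncard :=
    ncard_union_eq (hJF.mono_right hI.subset) (fin_of J (hJY.trans hY))
      (fin_of I hI.indep.subset_ground)
  have h5 : rk M (J ∪ I) = J.ncard + I.ncard := by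
    rw [(indep_iff_rk (fin_of _ h2.subset_ground)).1 h2, h4]
  -- `Y ∪ F` is in the closure of `J ∪ I`
  have h6 : Y ∪ F ⊆ M.closure (J ∪ I) := by
    have hF' : F ⊆ M.closure (J ∪ I) := by
      refine (M.subset_closure F h.unif.sub).trans ?_
      rw [← hI.closure_eq_closure]
      exact M.closure_subset_closure subset_union_right
    refine union_subset (fun y hy => ?_) hF'
    by_cases hyJ : y ∈ J
    · exact M.subset_closure _ h2.subset_ground (Or.inl hyJ)
    by_contra hcon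
    obtain ⟨h7, h8⟩ := (h2.notMem_closure_iff (hY hy)).1 hcon
    have h9 : (M ／ F).Indep (insert y J) := by
      rw [hI.contract_indep_iff]
      refine ⟨by rwa [insert_union], ?_⟩
      rw [disjoint_insert_right]
      exact ⟨fun h => Set.disjoint_left.1 hYF hy h, hJF.symm⟩
    have := hJ.eq_of_subset_indep h9 (subset_insert _ _) (insert_subset hy hJY)
    exact hyJ (this ▸ mem_insert y J)
  have h7 := rk_mono (M := M) h6
  rw [rk_closure] at h7
  have h8 := rk_mono (M := M) (union_subset_union hJY hI.subset)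
  omega

theorem contract_sub {Y : Set α} (hY : Y ⊆ (M ／ F).E) : Y ⊆ M.E ∧ Disjoint Y F := by
  rw [contract_ground] at hY
  exact ⟨hY.trans sdiff_subset, (subset_sdiff.1 hY).2⟩

/-- circuits `Y ∪ A` with a fixed trace `Y` outside `F` -/
theorem lift_circuit (h : Big M k F) {Y : Set α} (hY : M.Indep Y) (hYF : Disjoint Y F)
    (hYne : Y.Nonempty) {κ : ℕ} (hκ : 1 ≤ κ) (hκk : κ ≤ k)
    (H1 : ∀ B ⊆ F, B.ncard = κ → ∀ D, M.IsCircuit D → D ⊆ Y ∪ B → D \ F = Y)
    (H2 : ∀ B ⊆ F, B.ncard = κ → ¬ M.Indep (Y ∪ B)) :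
    (∀ B ⊆ F, B.ncard = κ → M.IsCircuit (Y ∪ B)) ∧
    ∀ D, M.IsCircuit D → D \ F = Y → (D ∩ F).ncard = κ := by
  classical
  have hFf := fin_of F h.unif.sub
  obtain ⟨G, rfl⟩ : ∃ G : Finset α, F = G := ⟨hFf.toFinset, by simp⟩
  have hF := h.unif
  have hc := h.hc
  have hc' := h.hc'
  rw [Set.ncard_coe_finset] at hc hc'
  set p : Finset α → Prop := fun A' => M.IsCircuit (Y ∪ (A' : Set α)) with hp
  have hYE := hY.subset_ground
  have hYG : ∀ y ∈ Y, y ∉ G := fun y hy h => Set.disjoint_left.1 hYF hy (Finset.mem_coe.2 h)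
  have hsplit : ∀ D : Set α, D \ (G : Set α) = Y → ∀ A' : Finset α, (A' : Set α) = D ∩ G →
      D = Y ∪ (A' : Set α) := by
    intro D hD A' hA'
    rw [hA', ← hD, sdiff_union_inter]
  have hex : ∀ B ⊆ G, B.card = κ → ∃ A', A' ⊆ B ∧ p A' := by
    intro B hB hBc
    have hB' : (B : Set α) ⊆ (G : Set α) := Finset.coe_subset.2 hB
    have hdep : M.Dep (Y ∪ (B : Set α)) := ⟨H2 B hB' (by rwa [Set.ncard_coe_finset]),
      union_subset hYE (hB'.trans hF.sub)⟩
    obtain ⟨D, hDs, hD⟩ := hdep.exists_isCircuit_subset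
    have h1 := H1 B hB' (by rwa [Set.ncard_coe_finset]) D hD hDs
    have hA' : ((G.filter fun e => e ∈ D : Finset α) : Set α) = D ∩ G := by
      ext e
      simp [and_comm]
    refine ⟨G.filter fun e => e ∈ D, fun e he => ?_, ?_⟩
    · rw [Finset.mem_filter] at he
      rcases hDs he.2 with h2 | h2
      · exact absurd he.1 (hYG e h2)
      · exact Finset.mem_coe.1 h2
    · rw [hp]
      simp only
      rw [← hsplit D h1 _ hA']
      exact hD
  have hinj : ∀ A₁ ⊆ G, ∀ A₂ ⊆ G, Y ∪ (A₁ : Set α) = Y ∪ (A₂ : Set α) → A₁ = A₂ := by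
    intro A₁ h₁ A₂ h₂ he
    ext e
    constructor
    · intro h1
      have : e ∈ Y ∪ (A₂ : Set α) := he ▸ Or.inr (Finset.mem_coe.2 h1)
      rcases this with h2 | h2
      · exact absurd (h₁ h1) (hYG e h2)
      · exact Finset.mem_coe.1 h2
    · intro h1
      have : e ∈ Y ∪ (A₁ : Set α) := he.symm ▸ Or.inr (Finset.mem_coe.2 h1)
      rcases this with h2 | h2
      · exact absurd (h₂ h1) (hYG e h2)
      · exact Finset.mem_coe.1 h2
  have hun : ∀ B ⊆ G, B.card = κ → ∀ A₁ A₂, A₁ ⊆ B → A₂ ⊆ B → p A₁ → p A₂ → A₁ = A₂ := by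
    intro B hB hBc A₁ A₂ hA₁ hA₂ hp₁ hp₂
    by_contra hne
    obtain ⟨y, hy⟩ := hYne
    obtain ⟨D, hDs, hD⟩ := hp₁.elimination hp₂
      (fun h => hne (hinj A₁ (hA₁.trans hB) A₂ (hA₂.trans hB) h)) y
    have hDs' : D ⊆ Y ∪ (B : Set α) := by
      refine (hDs.trans sdiff_subset).trans (union_subset ?_ ?_)
      · exact union_subset_union_right _ (Finset.coe_subset.2 hA₁)
      · exact union_subset_union_right _ (Finset.coe_subset.2 hA₂)
    have h1 := H1 B (Finset.coe_subset.2 hB) (by rwa [Set.ncard_coe_finset]) D hD hDs'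
    have h2 : y ∈ D \ (G : Set α) := h1.symm ▸ hy
    exact (hDs h2.1).2 rfl
  have hpc : ∀ A' ⊆ G, p A' → 1 ≤ A'.card ∧ A'.card ≤ k := by
    intro A' hA' hpA
    constructor
    · by_contra hcon
      have h0 : A' = ∅ := Finset.card_eq_zero.1 (by omega)
      subst h0
      simp only [hp, Finset.coe_empty, union_empty] at hpA
      exact hpA.not_indep hY
    · have h1 : M.Indep (A' : Set α) := by
        refine hpA.ssubset_indep ⟨subset_union_right, fun h => ?_⟩
        obtain ⟨y, hy⟩ := hYne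
        exact hYG y hy (hA' (Finset.mem_coe.1 (h (Or.inl hy))))
      have h2 := indep_ncard_le h1 (Finset.coe_subset.2 hA')
      rwa [hF.rk_eq, Set.ncard_coe_finset] at h2
  have hchi : ∀ A' ⊆ G, chi ℤ (Y ∪ (A' : Set α)) = chi ℤ Y + chi ℤ (A' : Set α) := by
    intro A' hA'
    funext e
    rw [Pi.add_apply, chi_apply, chi_apply, chi_apply]
    by_cases h1 : e ∈ Y
    · have h2 : e ∉ A' := fun h => hYG e h1 (hA' h)
      simp [h1, h2]
    · simp [h1]
  have hsame : ∀ A₁ ⊆ G, ∀ A₂ ⊆ G, p A₁ → p A₂ → A₁.card = A₂.card := by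
    intro A₁ h₁ A₂ h₂ hp₁ hp₂
    have h3 : chi ℤ (A₁ : Set α) - chi ℤ (A₂ : Set α) ∈ Lat M := by
      have e1 : chi ℤ (A₁ : Set α) - chi ℤ (A₂ : Set α) =
          chi ℤ (Y ∪ (A₁ : Set α)) - chi ℤ (Y ∪ (A₂ : Set α)) := by
        rw [hchi A₁ h₁, hchi A₂ h₂]
        abel
      rw [e1]
      exact sub_mem (chi_mem_lat hp₁) (chi_mem_lat hp₂)
    have h4 := unif_mod h.hM hF hc h3 (fun e he => by
      rw [Pi.sub_apply, chi_apply_notMem (fun h => he (h₁ (Finset.mem_coe.1 h))),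
        chi_apply_notMem (fun h => he (h₂ (Finset.mem_coe.1 h))), sub_zero])
    simp only [Pi.sub_apply, Finset.sum_sub_distrib] at h4
    rw [sum_chi_coe G (Finset.coe_subset.2 h₁), sum_chi_coe G (Finset.coe_subset.2 h₂),
      Set.ncard_coe_finset, Set.ncard_coe_finset] at h4
    have h5 := hpc A₁ h₁ hp₁
    have h6 := hpc A₂ h₂ hp₂
    have h7 := Int.eq_zero_of_abs_lt_dvd h4 (by
      rw [abs_lt]
      constructor <;> push_cast <;> omega)
    omega
  obtain ⟨B₀, hB₀G, hB₀⟩ := Finset.exists_subset_card_eq (s := G) (n := κ) (by omega)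
  obtain ⟨A₀, hA₀B, hA₀⟩ := hex B₀ hB₀G hB₀
  have hA₀G := hA₀B.trans hB₀G
  have hi := hpc A₀ hA₀G hA₀
  have hik : A₀.card = κ := by
    by_contra hcon
    have h1 := Finset.card_le_card hA₀B
    exact no_design G hi.1 (lt_of_le_of_ne (by omega) hcon) (by omega) p
      (fun A' hA' hpA => hsame A' hA' A₀ hA₀G hpA hA₀) hex hun
  constructor
  · intro B hB hBc
    obtain ⟨B', rfl⟩ : ∃ B' : Finset α, B = B' := ⟨(hFf.subset hB).toFinset, by simp⟩
    rw [Set.ncard_coe_finset] at hBc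
    have hB' := Finset.coe_subset.1 hB
    obtain ⟨A', hA'B, hpA⟩ := hex B' hB' hBc
    have h1 := hsame A' (hA'B.trans hB') A₀ hA₀G hpA hA₀
    have h2 : A' = B' := Finset.eq_of_subset_of_card_le hA'B (by omega)
    rw [← h2]
    exact hpA
  · intro D hD hDF
    have hA' : ((G.filter fun e => e ∈ D : Finset α) : Set α) = D ∩ G := by
      ext e
      simp [and_comm]
    rw [← hA', Set.ncard_coe_finset, ← hik]
    refine hsame _ (Finset.filter_subset _ _) A₀ hA₀G ?_ hA₀
    rw [hp]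
    simp only
    rw [← hsplit D hDF _ hA']
    exact hD

/-- the trace of a circuit outside `F` -/
theorem trace_dep (h : Big M k F) {B : Set α} (hB : B ⊆ F) (hBc : B.ncard ≤ k) {Y D : Set α}
    (hYF : Disjoint Y F) (hD : M.IsCircuit D) (hDs : D ⊆ Y ∪ B) :
    (M ／ F).Dep (D \ F) ∧ D \ F ⊆ Y ∧ D ∩ F ⊆ B := by
  have h1 : D ∩ F ⊆ B := by
    rintro e ⟨he, heF⟩
    exact (hDs he).resolve_left fun hY => Set.disjoint_left.1 hYF hY heF
  refine ⟨hD.contract_dep_of_not_subset fun hDF => ?_, ?_, h1⟩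
  · refine hD.not_indep ((h.unif.ind' hB hBc).subset ?_)
    rw [← inter_eq_left.2 hDF]
    exact h1
  · rintro e ⟨he, heF⟩
    exact (hDs he).resolve_right fun hB' => heF (hB hB')

theorem T3 (h : Big M k F) {C : Set α} (hC : (M ／ F).IsCircuit C) (hCi : M.Indep C) :
    (∀ B ⊆ F, B.ncard = k → M.IsCircuit (C ∪ B)) ∧
    ∀ D, M.IsCircuit D → D \ F = C → (D ∩ F).ncard = k := by
  obtain ⟨hCE, hCF⟩ := contract_sub hC.subset_ground
  have hk := h.hk
  refine lift_circuit h hCi hCF hC.nonempty (by omega) le_rfl ?_ ?_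
  · intro B hB hBc D hD hDs
    obtain ⟨h1, h2, h3⟩ := trace_dep h hB hBc.le hCF hD hDs
    exact hC.eq_of_dep_subset h1 h2
  · intro B hB hBc hI
    have h1 := indep_ncard_le hI (union_subset_union_right C hB)
    rw [← rk_contract h hCE hCF, ncard_union_eq (hCF.mono_right hB) (fin_of C hCE)
      (fin_of B (hB.trans h.unif.sub)), hBc] at h1
    have h2 := circuit_rk hC
    omega

/-- a trace of small nullity is a circuit -/
theorem trace_circuit (h : Big M k F) {D : Set α} (hD : M.IsCircuit D)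
    (hdep : (M ／ F).Dep (D \ F)) (hn : nl (M ／ F) (D \ F) ≤ 1) : (M ／ F).IsCircuit (D \ F) := by
  obtain ⟨hDE, hDF⟩ := contract_sub hdep.subset_ground
  obtain ⟨C, hCD, hC⟩ := hdep.exists_isCircuit_subset
  by_cases hCe : C = D \ F
  · rwa [← hCe]
  exfalso
  obtain ⟨y, hy, hyC⟩ := exists_of_ssubset (hCD.ssubset_of_ne hCe)
  -- `y` is in the closure of the rest
  have h1 : rk M ((D \ F) ∪ F) = rk M (((D \ F) \ {y}) ∪ F) := by
    refine le_antisymm ?_ (rk_mono (union_subset_union_left _ sdiff_subset))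
    rw [← rk_closure (((D \ F) \ {y}) ∪ F)]
    have h2 : ((D \ F) \ {y}) ∪ F ⊆ M.E :=
      union_subset (sdiff_subset.trans hDE) h.unif.sub
    refine rk_mono fun f hf => ?_
    by_cases hfy : f = y
    · rw [hfy]
      refine M.closure_subset_closure (fun g hg => ?_)
        (hD.mem_closure_sdiff_singleton_of_mem hy.1)
      by_cases hgF : g ∈ F
      · exact Or.inr hgF
      · exact Or.inl ⟨⟨hg.1, hgF⟩, hg.2⟩
    · refine M.subset_closure _ h2 ?_
      rcases hf with hf | hf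
      · exact Or.inl ⟨hf, hfy⟩
      · exact Or.inr hf
  have h3 := rk_contract h hDE hDF
  have h4 := rk_contract h (sdiff_subset.trans hDE) (hDF.mono_left (sdiff_subset (t := {y})))
  have h5 := nl_add (M := M ／ F) hdep.subset_ground
  have h6 := nl_add (M := M ／ F) (sdiff_subset.trans hdep.subset_ground : (D \ F) \ {y} ⊆ _)
  have h7 : C ⊆ (D \ F) \ {y} := fun f hf => ⟨hCD hf, fun h => hyC (h ▸ hf)⟩
  have h8 := nl_mono (M := M ／ F) h7 (sdiff_subset.trans hdep.subset_ground)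
  rw [nl_circuit hC] at h8
  rw [ncard_sdiff_singleton_of_mem hy] at h6
  have h9 : 1 ≤ (D \ F).ncard := (ncard_pos (fin_of _ hDE)).2 ⟨y, hy⟩
  omega

theorem T4 (h : Big M k F) {X : Set α} (hX : M.Indep X) (hXF : Disjoint X F)
    (hX2 : nl (M ／ F) X = 2) (hX1 : ∀ x ∈ X, nl (M ／ F) (X \ {x}) ≤ 1) :
    (∀ B ⊆ F, B.ncard = k - 1 → M.IsCircuit (X ∪ B)) ∧
    ∀ D, M.IsCircuit D → D \ F = X → (D ∩ F).ncard = k - 1 := by
  have hk := h.hk
  have hXE := hX.subset_ground
  have hXN : X ⊆ (M ／ F).E := by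
    rw [contract_ground]
    exact subset_sdiff.2 ⟨hXE, hXF⟩
  have hXne : X.Nonempty := by
    rw [nonempty_iff_ne_empty]
    rintro rfl
    simp [nl] at hX2
  refine lift_circuit h hX hXF hXne (by omega) (by omega) ?_ ?_
  · intro B hB hBc D hD hDs
    obtain ⟨h1, h2, h3⟩ := trace_dep h hB (by omega) hXF hD hDs
    by_contra hne
    obtain ⟨x, hxX, hxD⟩ := exists_of_ssubset (h2.ssubset_of_ne hne)
    have h4 : D \ F ⊆ X \ {x} := fun f hf => ⟨h2 hf, fun h => hxD (h ▸ hf)⟩
    have h5 := (nl_mono (M := M ／ F) h4 (sdiff_subset.trans hXN)).trans (hX1 x hxX)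
    have h6 := trace_circuit h hD h1 h5
    have h7 := (T3 h h6 (hX.subset h2)).2 D hD rfl
    have h8 := ncard_le_ncard h3 (fin_of B (hB.trans h.unif.sub))
    omega
  · intro B hB hBc hI
    have h1 := indep_ncard_le hI (union_subset_union_right X hB)
    rw [← rk_contract h hXE hXF, ncard_union_eq (hXF.mono_right hB) (fin_of X hXE)
      (fin_of B (hB.trans h.unif.sub)), hBc] at h1
    have h2 := nl_add (M := M ／ F) hXN
    omega

end cont

end Pool.Agent.helper9.HB49
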