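import Mathlib

set_option autoImplicit false

/-! # There is no exact design on many points -/

open Set

namespace Pool.Agent.helper9.HB49

theorem exists_min {β : Type*} (f : β → ℕ) {P : β → Prop} (h : ∃ x, P x) :
    ∃ x, P x ∧ ∀ y, P y → f x ≤ f y := by
  classical
  have h' : ∃ n, ∃ x, P x ∧ f x = n := by
    obtain ⟨x, hx⟩ := h
    exact ⟨f x, x, hx, rfl⟩
  obtain ⟨x, hx, hfx⟩ := Nat.find_spec h'
  exact ⟨x, hx, fun y hy => hfx ▸ Nat.find_min' h' ⟨y, hy, rfl⟩⟩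

theorem exists_max {β : Type*} (f : β → ℕ) {P : β → Prop} (N : ℕ) (hN : ∀ x, P x → f x ≤ N)
    (h : ∃ x, P x) : ∃ x, P x ∧ ∀ y, P y → f y ≤ f x := by
  obtain ⟨x, hx, hm⟩ := exists_min (fun x => N - f x) h
  refine ⟨x, hx, fun y hy => ?_⟩
  have h1 := hm y hy
  have h2 := hN x hx
  have h3 := hN y hy
  omega

/-- if every `κ`-subset of `F` contains exactly one member of a family of `i`-sets, `1 ≤ i < κ`,
then `|F| ≤ 2κ - 2` -/
theorem no_design {α : Type*} [DecidableEq α] (F : Finset α) {κ i : ℕ} (hi : 1 ≤ i) (hiκ : i < κ)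
    (hF : 2 * κ ≤ F.card + 1) (p : Finset α → Prop) (hcard : ∀ A ⊆ F, p A → A.card = i)
    (hex : ∀ B ⊆ F, B.card = κ → ∃ A, A ⊆ B ∧ p A)
    (hun : ∀ B ⊆ F, B.card = κ → ∀ A A', A ⊆ B → A' ⊆ B → p A → p A' → A = A') : False := by
  obtain ⟨B₀, hB₀F, hB₀⟩ := Finset.exists_subset_card_eq (s := F) (n := κ) (by omega)
  obtain ⟨A₀, hA₀B, hA₀⟩ := hex B₀ hB₀F hB₀
  have hA₀c := hcard A₀ (hA₀B.trans hB₀F) hA₀
  obtain ⟨a, ha⟩ : A₀.Nonempty := Finset.card_pos.1 (by omega)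
  set Y := B₀.erase a with hY
  have hYc : Y.card = κ - 1 := by rw [hY, Finset.card_erase_of_mem (hA₀B ha), hB₀]
  have hYF : Y ⊆ F := (Finset.erase_subset _ _).trans hB₀F
  have hYno : ∀ A ⊆ Y, ¬ p A := by
    intro A hA hp
    have h1 := hun B₀ hB₀F hB₀ A A₀ (hA.trans (Finset.erase_subset _ _)) hA₀B hp hA₀
    rw [h1] at hA
    exact (Finset.notMem_erase a B₀) (hA ha)
  have hins : ∀ x ∈ F \ Y, ∃ A, A ⊆ insert x Y ∧ p A := by
    intro x hx
    rw [Finset.mem_sdiff] at hx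
    exact hex _ (Finset.insert_subset hx.1 hYF)
      (by rw [Finset.card_insert_of_notMem hx.2, hYc]; omega)
  choose! A hAsub hAp using hins
  have hxA : ∀ x ∈ F \ Y, x ∈ A x := by
    intro x hx
    by_contra hcon
    refine hYno (A x) (fun z hz => ?_) (hAp x hx)
    rcases Finset.mem_insert.1 (hAsub x hx hz) with h | h
    · exact absurd (h ▸ hz) hcon
    · exact h
  have hAF : ∀ x ∈ F \ Y, A x ⊆ F := by
    intro x hx
    exact (hAsub x hx).trans (Finset.insert_subset (Finset.mem_sdiff.1 hx).1 hYF)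
  -- the sets `Y \ A x`
  have hZc : ∀ x ∈ F \ Y, (Y \ A x).card = κ - i := by
    intro x hx
    have h1 : (A x).erase x ⊆ Y := by
      intro z hz
      rw [Finset.mem_erase] at hz
      rcases Finset.mem_insert.1 (hAsub x hx hz.2) with h | h
      · exact absurd h hz.1
      · exact h
    have h2 : Y \ A x = Y \ (A x).erase x := by
      ext z
      simp only [Finset.mem_sdiff, Finset.mem_erase]
      constructor
      · rintro ⟨h3, h4⟩
        exact ⟨h3, fun h => h4 h.2⟩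
      · rintro ⟨h3, h4⟩
        refine ⟨h3, fun h => h4 ⟨?_, h⟩⟩
        rintro rfl
        exact (Finset.mem_sdiff.1 hx).2 h3
    rw [h2, Finset.card_sdiff_of_subset h1, Finset.card_erase_of_mem (hxA x hx),
      hcard _ (hAF x hx) (hAp x hx), hYc]
    omega
  have hdis : ∀ x ∈ F \ Y, ∀ x' ∈ F \ Y, x ≠ x' → Disjoint (Y \ A x) (Y \ A x') := by
    intro x hx x' hx' hne
    rw [Finset.disjoint_left]
    intro z hz hz'
    rw [Finset.mem_sdiff] at hz hz'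
    have hx2 := Finset.mem_sdiff.1 hx
    have hx2' := Finset.mem_sdiff.1 hx'
    have hB : insert x (insert x' (Y.erase z)) ⊆ F :=
      Finset.insert_subset hx2.1 (Finset.insert_subset hx2'.1
        ((Finset.erase_subset _ _).trans hYF))
    have hx'Y : x' ∉ Y.erase z := fun h => hx2'.2 (Finset.mem_of_mem_erase h)
    have hxY : x ∉ insert x' (Y.erase z) := by
      rw [Finset.mem_insert, not_or]
      exact ⟨hne, fun h => hx2.2 (Finset.mem_of_mem_erase h)⟩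
    have hBc : (insert x (insert x' (Y.erase z))).card = κ := by
      rw [Finset.card_insert_of_notMem hxY, Finset.card_insert_of_notMem hx'Y,
        Finset.card_erase_of_mem hz.1, hYc]
      omega
    have h1 : A x ⊆ insert x (insert x' (Y.erase z)) := by
      intro w hw
      rcases Finset.mem_insert.1 (hAsub x hx hw) with h | h
      · rw [h]
        exact Finset.mem_insert_self _ _
      · refine Finset.mem_insert_of_mem (Finset.mem_insert_of_mem (Finset.mem_erase.2 ⟨?_, h⟩))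
        rintro rfl
        exact hz.2 hw
    have h2 : A x' ⊆ insert x (insert x' (Y.erase z)) := by
      intro w hw
      rcases Finset.mem_insert.1 (hAsub x' hx' hw) with h | h
      · rw [h]
        exact Finset.mem_insert_of_mem (Finset.mem_insert_self _ _)
      · refine Finset.mem_insert_of_mem (Finset.mem_insert_of_mem (Finset.mem_erase.2 ⟨?_, h⟩))
        rintro rfl
        exact hz'.2 hw
    have h3 := hun _ hB hBc _ _ h1 h2 (hAp x hx) (hAp x' hx')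
    have h4 : x' ∈ A x := by
      rw [h3]
      exact hxA x' hx'
    rcases Finset.mem_insert.1 (hAsub x hx h4) with h | h
    · exact hne h.symm
    · exact hx2'.2 h
  have h1 : ((F \ Y).biUnion fun x => Y \ A x).card ≤ Y.card :=
    Finset.card_le_card (Finset.biUnion_subset.2 fun x _ => Finset.sdiff_subset)
  rw [Finset.card_biUnion hdis, Finset.sum_congr rfl hZc, Finset.sum_const, smul_eq_mul,
    Finset.card_sdiff_of_subset hYF, hYc] at h1
  have h2 : (F.card - (κ - 1)) * 1 ≤ (F.card - (κ - 1)) * (κ - i) :=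
    Nat.mul_le_mul_left _ (by omega)
  omega

/-! ### connectedness by circuits is transitive -/

theorem circuit_trans {α : Type*} (M : Matroid α) [M.Finite] (Z : Set α) {u v w : α}
    (huv : ∃ C, M.IsCircuit C ∧ C ⊆ Z ∧ u ∈ C ∧ v ∈ C)
    (hvw : ∃ C, M.IsCircuit C ∧ C ⊆ Z ∧ v ∈ C ∧ w ∈ C) :
    ∃ C, M.IsCircuit C ∧ C ⊆ Z ∧ u ∈ C ∧ w ∈ C := by
  by_contra hno
  push Not at hno
  obtain ⟨C₁, hC₁, hZ₁, hu, hv⟩ := huv
  obtain ⟨C₂, hC₂, hZ₂, hv', hw⟩ := hvw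
  obtain ⟨⟨C₁, C₂⟩, ⟨hC₁, hC₂, hZ₁, hZ₂, hu, hw, hne⟩, hmin⟩ :=
    exists_min (β := Set α × Set α) (fun q => (q.1 ∪ q.2).ncard)
    (P := fun q => M.IsCircuit q.1 ∧ M.IsCircuit q.2 ∧ q.1 ⊆ Z ∧ q.2 ⊆ Z ∧ u ∈ q.1 ∧ w ∈ q.2 ∧
      (q.1 ∩ q.2).Nonempty) ⟨⟨C₁, C₂⟩, hC₁, hC₂, hZ₁, hZ₂, hu, hw, ⟨v, hv, hv'⟩⟩
  simp only at hC₁ hC₂ hZ₁ hZ₂ hu hw hne hmin
  obtain ⟨v, hv, hv'⟩ := hne
  have hu2 : u ∉ C₂ := fun h => hno C₂ hC₂ hZ₂ h hw
  have hw1 : w ∉ C₁ := fun h => hno C₁ hC₁ hZ₁ hu h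
  have hfin : (C₁ ∪ C₂).Finite :=
    M.ground_finite.subset (union_subset hC₁.subset_ground hC₂.subset_ground)
  obtain ⟨C₃, hC₃s, hC₃, hu3⟩ := hC₁.strong_elimination hC₂ hv hv' hu hu2
  have hC₂' := hC₂.strong_elimination hC₁ hv' hv hw hw1
  obtain ⟨C₄, hC₄s, hC₄, hw4⟩ := hC₂'
  have h3U : C₃ ⊆ C₁ ∪ C₂ := hC₃s.trans sdiff_subset
  have h4U : C₄ ⊆ C₁ ∪ C₂ := by
    rw [union_comm]
    exact hC₄s.trans sdiff_subset
  have hv3 : v ∉ C₃ := fun h => (hC₃s h).2 rfl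
  have hv4 : v ∉ C₄ := fun h => (hC₄s h).2 rfl
  -- `C₃` meets `C₂ \ C₁`
  obtain ⟨y, hy3, hy1⟩ : ∃ y ∈ C₃, y ∉ C₁ := by
    by_contra hcon
    push Not at hcon
    have := hC₃.eq_of_subset_isCircuit hC₁ hcon
    exact hv3 (this ▸ hv)
  have hy2 : y ∈ C₂ := (h3U hy3).resolve_left hy1
  obtain ⟨x, hx4, hx2⟩ : ∃ x ∈ C₄, x ∉ C₂ := by
    by_contra hcon
    push Not at hcon
    have := hC₄.eq_of_subset_isCircuit hC₂ hcon
    exact hv4 (this ▸ hv')
  have hx1 : x ∈ C₁ := (h4U hx4).resolve_right hx2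
  have hZU : C₁ ∪ C₂ ⊆ Z := union_subset hZ₁ hZ₂
  -- `C₃ ∪ C₂ = C₁ ∪ C₂`
  have h32 := hmin ⟨C₃, C₂⟩ ⟨hC₃, hC₂, h3U.trans hZU, hZ₂, hu3, hw, ⟨y, hy3, hy2⟩⟩
  simp only at h32
  have e32 : C₃ ∪ C₂ = C₁ ∪ C₂ :=
    eq_of_subset_of_ncard_le (union_subset h3U subset_union_right) h32 hfin
  have hx3 : x ∈ C₃ := by
    have : x ∈ C₃ ∪ C₂ := e32 ▸ Or.inl hx1
    exact this.resolve_right hx2
  have h34 := hmin ⟨C₃, C₄⟩ ⟨hC₃, hC₄, h3U.trans hZU, h4U.trans hZU, hu3, hw4, ⟨x, hx3, hx4⟩⟩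
  simp only at h34
  have e34 : C₃ ∪ C₄ = C₁ ∪ C₂ :=
    eq_of_subset_of_ncard_le (union_subset h3U h4U) h34 hfin
  have : v ∈ C₃ ∪ C₄ := e34 ▸ Or.inl hv
  rcases this with h | h
  · exact hv3 h
  · exact hv4 h

end Pool.Agent.helper9.HB49
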