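import Pool.Agent.helper9.HB49.Big.Conn

set_option autoImplicit false

/-! # Three-connected matroids with a large uniform restriction -/

open Set Matroid

namespace Pool.Agent.helper9.HB49

variable {α : Type*} {M : Matroid α}

/-- no `1`-separation and no `2`-separation -/
def ThreeConnected (M : Matroid α) : Prop :=
  (∀ X ⊆ M.E, X.Nonempty → (M.E \ X).Nonempty → M.eRank + 1 ≤ M.eRk X + M.eRk (M.E \ X)) ∧
  (∀ X ⊆ M.E, 2 ≤ X.ncard → 2 ≤ (M.E \ X).ncard → M.eRank + 2 ≤ M.eRk X + M.eRk (M.E \ X))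

section

variable [M.Finite]

theorem tc_one (h : ThreeConnected M) {X : Set α} (hX : X ⊆ M.E) (h1 : X.Nonempty)
    (h2 : (M.E \ X).Nonempty) : rk M M.E + 1 ≤ rk M X + rk M (M.E \ X) := by
  have h3 := h.1 X hX h1 h2
  rw [Matroid.eRank_def, ← cast_rk, ← cast_rk, ← cast_rk] at h3
  exact_mod_cast h3

theorem tc_two (h : ThreeConnected M) {X : Set α} (hX : X ⊆ M.E) (h1 : 2 ≤ X.ncard)
    (h2 : 2 ≤ (M.E \ X).ncard) : rk M M.E + 2 ≤ rk M X + rk M (M.E \ X) := by
  have h3 := h.2 X hX h1 h2
  rw [Matroid.eRank_def, ← cast_rk, ← cast_rk, ← cast_rk] at h3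
  exact_mod_cast h3

theorem tc_loopless (h : ThreeConnected M) (hE : 2 ≤ M.E.ncard) {e : α} (he : e ∈ M.E) :
    rk M {e} = 1 := by
  have h1 : (M.E \ {e}).Nonempty := by
    rw [nonempty_iff_ne_empty]
    intro h0
    have := ncard_sdiff_singleton_of_mem he
    rw [h0, ncard_empty] at this
    omega
  have h2 := tc_one h (singleton_subset_iff.2 he) (singleton_nonempty e) h1
  have h3 := rk_mono (M := M) (sdiff_subset : M.E \ {e} ⊆ M.E)
  have h4 := rk_le_ncard (M := M) (finite_singleton e)
  rw [ncard_singleton] at h4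
  omega

theorem tc_pair (h : ThreeConnected M) (hE : 4 ≤ M.E.ncard) {e f : α} (he : e ∈ M.E)
    (hf : f ∈ M.E) (hef : e ≠ f) : M.Indep {e, f} := by
  have hs : ({e, f} : Set α) ⊆ M.E := by
    rintro g (rfl | rfl) <;> assumption
  have hc : ({e, f} : Set α).ncard = 2 := ncard_pair hef
  have h1 : 2 ≤ (M.E \ {e, f}).ncard := by
    have := ncard_sdiff_add_ncard_of_subset hs M.ground_finite
    omega
  have h2 := tc_two h hs (by omega) h1
  have h3 := rk_mono (M := M) (sdiff_subset : M.E \ {e, f} ⊆ M.E)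
  have h4 := rk_le_ncard (M := M) (fin_of _ hs)
  rw [indep_iff_rk (fin_of _ hs)]
  omega

/-- a component of a matroid, with additive rank -/
theorem component_rk {N : Matroid α} [N.Finite] {K : Set α} (hK : K ⊆ N.E)
    (hC : ∀ C, N.IsCircuit C → (C ∩ K).Nonempty → C ⊆ K) :
    rk N K + rk N (N.E \ K) ≤ rk N N.E := by
  obtain ⟨I, hI⟩ := N.exists_isBasis K hK
  obtain ⟨J, hJ⟩ := N.exists_isBasis (N.E \ K) sdiff_subset
  have h1 : N.Indep (I ∪ J) := by
    by_contra hcon
    have h2 : N.Dep (I ∪ J) :=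
      ⟨hcon, union_subset hI.indep.subset_ground hJ.indep.subset_ground⟩
    obtain ⟨C, hCs, hCc⟩ := h2.exists_isCircuit_subset
    by_cases h3 : (C ∩ K).Nonempty
    · have h4 := hC C hCc h3
      refine hCc.dep.not_indep (hI.indep.subset fun e he => ?_)
      exact (hCs he).resolve_right fun h5 => (hJ.subset h5).2 (h4 he)
    · refine hCc.dep.not_indep (hJ.indep.subset fun e he => ?_)
      exact (hCs he).resolve_left fun h5 => h3 ⟨e, he, hI.subset h5⟩
  have h2 := indep_ncard_le h1 h1.subset_ground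
  have hd : Disjoint I J := by
    rw [Set.disjoint_left]
    exact fun e he he' => (hJ.subset he').2 (hI.subset he)
  have hIf := fin_of I hI.indep.subset_ground
  have hJf := fin_of J hJ.indep.subset_ground
  rw [ncard_union_eq hd hIf hJf] at h2
  have h3 : rk N K = I.ncard := by
    rw [← (indep_iff_rk hIf).1 hI.indep, rk, rk, hI.eRk_eq_eRk]
  have h4 : rk N (N.E \ K) = J.ncard := by
    rw [← (indep_iff_rk hJf).1 hJ.indep, rk, rk, hJ.eRk_eq_eRk]
  omega

theorem flat_eq_ground {k : ℕ} {F : Set α} (h : Big M k F) (h3 : ThreeConnected M) :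
    F = M.E := by
  by_contra hne
  obtain ⟨x, hxE, hxF⟩ : ∃ x ∈ M.E, x ∉ F := by
    by_contra hcon
    push Not at hcon
    exact hne (subset_antisymm h.unif.sub hcon)
  have hFf := fin_of F h.unif.sub
  set N := M ／ F with hN
  have hNE : N.E = M.E \ F := contract_ground M F
  set K : Set α := {y | y ∈ N.E ∧ (y = x ∨ ∃ C, N.IsCircuit C ∧ C ⊆ univ ∧ x ∈ C ∧ y ∈ C)} with hKd
  have hKN : K ⊆ N.E := fun y hy => hy.1
  have hxN : x ∈ N.E := by rw [hNE]; exact ⟨hxE, hxF⟩
  have hxK : x ∈ K := ⟨hxN, Or.inl rfl⟩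
  have hcl : ∀ C, N.IsCircuit C → (C ∩ K).Nonempty → C ⊆ K := by
    rintro C hC ⟨u, huC, huK⟩ v hv
    refine ⟨hC.subset_ground hv, ?_⟩
    rcases huK.2 with rfl | h1
    · exact Or.inr ⟨C, hC, subset_univ _, huC, hv⟩
    · exact Or.inr (circuit_trans N univ h1 ⟨C, hC, subset_univ _, huC, hv⟩)
  have hcon : Con N K := by
    intro u hu v hv huv
    have h1 : ∃ C, N.IsCircuit C ∧ C ⊆ univ ∧ u ∈ C ∧ v ∈ C := by
      rcases hu.2 with rfl | ⟨C₁, hC₁, -, h1, h2⟩
      · rcases hv.2 with rfl | h2
        · exact absurd rfl huv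
        · exact h2
      · rcases hv.2 with rfl | h3
        · exact ⟨C₁, hC₁, subset_univ _, h2, h1⟩
        · exact circuit_trans N univ ⟨C₁, hC₁, subset_univ _, h2, h1⟩ h3
    obtain ⟨C, hC, -, h2, h4⟩ := h1
    exact ⟨C, hC, hcl C hC ⟨u, h2, hu⟩, h2, h4⟩
  have hKM := contract_sub hKN
  have a1 := component_rk hKN hcl
  have a2 := rk_contract h hKM.1 hKM.2
  have a3 : rk N (N.E \ K) + k = rk M (M.E \ K) := by
    have h1 : N.E \ K ⊆ N.E := sdiff_subset
    have h2 := contract_sub h1
    rw [rk_contract h h2.1 h2.2]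
    congr 1
    rw [hNE]
    ext e
    constructor
    · rintro (h4 | h4)
      · exact ⟨h4.1.1, h4.2⟩
      · exact ⟨h.unif.sub h4, fun h5 => Set.disjoint_left.1 hKM.2 h5 h4⟩
    · rintro ⟨h4, h5⟩
      by_cases h6 : e ∈ F
      · exact Or.inr h6
      · exact Or.inl ⟨⟨h4, h6⟩, h5⟩
  have a4 : rk N N.E + k = rk M M.E := by
    have h2 := contract_sub (M := M) (F := F) (Y := N.E) subset_rfl
    rw [rk_contract h h2.1 h2.2]
    congr 1
    rw [hNE, sdiff_union_of_subset h.unif.sub]
  have a5 := con_le_one h hKN hcon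
  have a6 : nu M F K + nl M K = nl N K := nu_add h hKN
  have a7 := nl_add (M := M) hKM.1
  have a8 := nl_add (M := N) hKN
  have hFK : F ⊆ M.E \ K := fun e he =>
    ⟨h.unif.sub he, fun h5 => Set.disjoint_left.1 hKM.2 h5 he⟩
  have hFK' := ncard_le_ncard hFK (M.ground_finite.sdiff (t := K))
  have hF4 := h.hc
  have hF2 := h.hk
  have hKf := fin_of K hKM.1
  have hK1 : 1 ≤ K.ncard := (ncard_pos hKf).2 ⟨x, hxK⟩
  by_cases hK2 : 2 ≤ K.ncard
  · have a9 := tc_two h3 hKM.1 hK2 (by omega)
    omega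
  · have hKx : K = {x} := by
      obtain ⟨y, hy⟩ := ncard_eq_one.1 (by omega : K.ncard = 1)
      rw [hy] at hxK ⊢
      rw [mem_singleton_iff.1 hxK]
    have hx1 : rk N {x} = 1 := by
      have hxs : ({x} : Set α) ⊆ M.E := singleton_subset_iff.2 hxE
      have hxd : Disjoint ({x} : Set α) F := disjoint_singleton_left.2 hxF
      have h1 : rk N {x} + k = rk M ({x} ∪ F) := rk_contract h hxs hxd
      have h2 : rk M ({x} ∪ F) = k + 1 := by
        rw [singleton_union]
        have h4 := rk_insert_le (M := M) F x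
        rw [h.unif.rk_eq] at h4
        have h5 := rk_mono (M := M) (subset_insert x F)
        rw [h.unif.rk_eq] at h5
        by_contra h6
        have h7 : rk M (insert x F) = k := by omega
        -- then `x` is in the closure of `F`
        obtain ⟨I, hI⟩ := M.exists_isBasis F h.unif.sub
        have hIf := fin_of I hI.indep.subset_ground
        have hIk : I.ncard = k := by
          rw [← (indep_iff_rk hIf).1 hI.indep, ← h.unif.rk_eq, rk, rk, hI.eRk_eq_eRk]
        have hxcl : x ∉ M.closure I := by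
          rw [hI.closure_eq_closure, h.flat]
          exact hxF
        obtain ⟨h8, h9⟩ := (hI.indep.notMem_closure_iff hxE).1 hxcl
        have h10 := indep_ncard_le h8 (insert_subset_insert hI.subset)
        rw [ncard_insert_of_notMem h9 hIf, h7, hIk] at h10
        omega
      omega
    have a9 := tc_one h3 hKM.1 ⟨x, hxK⟩ (by
      obtain ⟨f, hf⟩ := (ncard_pos hFf).1 (by omega)
      exact ⟨f, hFK hf⟩)
    have a10 : nl N K = 0 := by
      rw [nl, hKx, hx1, ncard_singleton]
    omega

theorem UnifOn.uniformType {k : ℕ} (h : UnifOn M k M.E) : UniformType M := by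
  refine ⟨k, fun C => ⟨fun hC => ⟨hC.subset_ground, ?_⟩, fun hC => h.circuit hC.1 hC.2⟩⟩
  have hCf := circuit_finite hC
  obtain ⟨e, he⟩ := hC.nonempty
  have h1 := (h.indep_iff (sdiff_subset.trans hC.subset_ground : C \ {e} ⊆ M.E)).1
    (hC.sdiff_singleton_indep he)
  rw [ncard_sdiff_singleton_of_mem he] at h1
  have h2 : ¬ C.ncard ≤ k := fun h3 => hC.dep.not_indep ((h.indep_iff hC.subset_ground).2 h3)
  omega

/-- a simple matroid of rank at most `s` with at least `2 ^ (s ^ 2)` elements has a large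
uniform restriction -/
theorem exists_unif (h1 : ∀ e ∈ M.E, rk M {e} = 1)
    (h2 : ∀ e ∈ M.E, ∀ f ∈ M.E, e ≠ f → M.Indep {e, f}) (s : ℕ) :
    ∀ Z ⊆ M.E, rk M Z ≤ s → 2 ^ (s ^ 2) ≤ Z.ncard →
    ∃ k A, 2 ≤ k ∧ k + 2 ≤ A.ncard ∧ 2 * k ≤ A.ncard + 1 ∧ UnifOn M k A := by
  classical
  induction s with
  | zero =>
    intro Z hZ hr hc
    exfalso
    obtain ⟨e, he⟩ := (ncard_pos (fin_of Z hZ)).1 (by
      have : 1 ≤ Z.ncard := by simpa using hc
      omega)
    have := rk_mono (M := M) (singleton_subset_iff.2 he)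
    rw [h1 e (hZ he)] at this
    omega
  | succ n ih =>
    intro Z hZ hr hc
    have hZf := fin_of Z hZ
    rcases Nat.eq_zero_or_pos n with rfl | hn
    · exfalso
      norm_num at hc
      obtain ⟨e, he, f, hf, hef⟩ := (one_lt_ncard hZf).1 hc
      have h3 := indep_ncard_le (h2 e (hZ he) f (hZ hf) hef)
        (by rintro g (rfl | rfl) <;> assumption : ({e, f} : Set α) ⊆ Z)
      rw [ncard_pair hef] at h3
      omega
    by_cases hrn : rk M Z ≤ n
    · refine ih Z hZ hrn (le_trans (Nat.pow_le_pow_right (by norm_num) ?_) hc)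
      nlinarith
    have hrZ : rk M Z = n + 1 := by omega
    -- a maximal generic set
    obtain ⟨A, ⟨hAZ, hA⟩, hAmax⟩ := exists_max (β := Set α) (fun A => A.ncard)
      (P := fun A => A ⊆ Z ∧ ∀ B ⊆ A, B.ncard ≤ n + 1 → M.Indep B) Z.ncard
      (fun A hA => ncard_le_ncard hA.1 hZf)
      ⟨∅, empty_subset _, fun B hB _ => by
        rw [subset_empty_iff.1 hB]
        exact M.empty_indep⟩
    have hAf : A.Finite := hZf.subset hAZ
    by_cases hAc : (n + 1) + 2 ≤ A.ncard ∧ 2 * (n + 1) ≤ A.ncard + 1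
    · refine ⟨n + 1, A, by omega, hAc.1, hAc.2, hAZ.trans hZ, ?_, fun B hB hBc => hA B hB hBc.le⟩
      obtain ⟨B, hB, hBc⟩ := exists_subset_card_eq (s := A) (n := n + 1) (by omega)
      have h3 := indep_ncard_le (hA B hB hBc.le) hB
      have h4 := rk_mono (M := M) hAZ
      omega
    have hAc' : A.ncard ≤ 2 * n + 1 := by omega
    -- pigeonhole
    set Af := hAf.toFinset with hAfd
    have hAfc : Af.card = A.ncard := (ncard_eq_toFinset_card A hAf).symm
    have hcov : hZf.toFinset ⊆ (Af.powerset.filter fun B => B.card ≤ n).biUnion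
        fun B => hZf.toFinset.filter fun z => z ∈ M.closure (B : Set α) := by
      intro z hz
      have hzZ : z ∈ Z := by simpa using hz
      rw [Finset.mem_biUnion]
      by_cases hzA : z ∈ A
      · refine ⟨{z}, ?_, ?_⟩
        · rw [Finset.mem_filter, Finset.mem_powerset, Finset.singleton_subset_iff,
            Finset.card_singleton]
          exact ⟨by simpa [hAfd] using hzA, hn⟩
        · rw [Finset.mem_filter]
          refine ⟨hz, M.mem_closure_of_mem (by simp) ?_⟩
          simpa using hZ hzZ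
      · have h3 : ¬ ∀ B ⊆ insert z A, B.ncard ≤ n + 1 → M.Indep B := by
          intro h4
          have h5 := hAmax (insert z A) ⟨insert_subset hzZ hAZ, h4⟩
          have h6 : (insert z A).ncard = A.ncard + 1 := ncard_insert_of_notMem hzA hAf
          have h7 : (insert z A).ncard ≤ A.ncard := h5
          omega
        push Not at h3
        obtain ⟨B, hB, hBc, hBi⟩ := h3
        have hBf : B.Finite := (hAf.insert z).subset hB
        have hzB : z ∈ B := by
          by_contra hzB
          exact hBi (hA B (fun e he => (hB he).resolve_left fun h => hzB (h ▸ he)) hBc)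
        have hB' : B \ {z} ⊆ A := fun e he => (hB he.1).resolve_left he.2
        have hBc' : (B \ {z}).ncard ≤ n := by
          rw [ncard_sdiff_singleton_of_mem hzB]
          omega
        have hBi' := hA (B \ {z}) hB' (by omega)
        have hcl : z ∈ M.closure (B \ {z}) := by
          by_contra hcon
          obtain ⟨h4, -⟩ := (hBi'.notMem_closure_iff (hZ hzZ)).1 hcon
          rw [insert_sdiff_singleton, insert_eq_of_mem hzB] at h4
          exact hBi h4
        have hB'f : (B \ {z}).Finite := hBf.sdiff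
        refine ⟨hB'f.toFinset, ?_, ?_⟩
        · rw [Finset.mem_filter, Finset.mem_powerset]
          refine ⟨?_, ?_⟩
          · intro e he
            have : e ∈ B \ {z} := by simpa using he
            simpa [hAfd] using hB' this
          · rw [← ncard_eq_toFinset_card _ hB'f]
            exact hBc'
        · rw [Finset.mem_filter]
          refine ⟨hz, ?_⟩
          rw [Finite.coe_toFinset]
          exact hcl
    by_contra hno
    have hpos : 1 ≤ 2 ^ (n ^ 2) := Nat.one_le_two_pow
    have h4 := Finset.card_le_card hcov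
    have h5 := Finset.card_biUnion_le_card_mul (Af.powerset.filter fun B => B.card ≤ n)
      (fun B => hZf.toFinset.filter fun z => z ∈ M.closure (B : Set α)) (2 ^ (n ^ 2) - 1) (by
        intro B hB
        rw [Finset.mem_filter, Finset.mem_powerset] at hB
        by_contra hlt
        apply hno
        refine ih (Z ∩ M.closure (B : Set α)) (inter_subset_left.trans hZ) ?_ ?_
        · refine (rk_mono (M := M) inter_subset_right).trans ?_
          rw [rk_closure]
          refine (rk_le_ncard (M := M) B.finite_toSet).trans ?_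
          rw [ncard_coe_finset]
          exact hB.2
        · have h6 : (hZf.toFinset.filter fun z => z ∈ M.closure (B : Set α) : Finset α).card =
              (Z ∩ M.closure (B : Set α)).ncard := by
            rw [← ncard_coe_finset]
            congr 1
            ext e
            simp
          rw [← h6]
          omega)
    have h6 : (Af.powerset.filter fun B => B.card ≤ n).card ≤ 2 ^ (2 * n + 1) := by
      refine (Finset.card_filter_le _ _).trans ?_
      rw [Finset.card_powerset, hAfc]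
      exact Nat.pow_le_pow_right (by norm_num) hAc'
    have h7 : hZf.toFinset.card = Z.ncard := (ncard_eq_toFinset_card Z hZf).symm
    have h8 : 2 ^ ((n + 1) ^ 2) = 2 ^ (2 * n + 1) * 2 ^ (n ^ 2) := by
      rw [← pow_add]
      congr 1
      ring
    have h9 : (Af.powerset.filter fun B => B.card ≤ n).card * (2 ^ (n ^ 2) - 1) <
        2 ^ (2 * n + 1) * 2 ^ (n ^ 2) := by
      refine lt_of_le_of_lt (Nat.mul_le_mul_right _ h6) ?_
      exact Nat.mul_lt_mul_of_pos_left (by omega) (by positivity)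
    omega

/-- the classification -/
theorem three_connected (h3 : ThreeConnected M)
    (hU : (∃ k A, 2 ≤ k ∧ A ⊆ M.E ∧ k + 2 ≤ A.ncard ∧ 2 * k ≤ A.ncard + 1 ∧
      ∀ I ⊆ A, (M.Indep I ↔ I.ncard ≤ k)) ∨
      ∃ r : ℕ, 2 ≤ r ∧ M.eRank = r ∧ 2 ^ (r ^ 2) ≤ M.E.ncard) :
    CircuitsHilbert M ↔ UniformType M := by
  refine ⟨fun hM => ?_, fun ⟨r, hr⟩ => uniform_hilbert r hr⟩
  have hU' : 4 ≤ M.E.ncard ∧ ∃ k A, 2 ≤ k ∧ k + 2 ≤ A.ncard ∧ 2 * k ≤ A.ncard + 1 ∧
      UnifOn M k A := by
    rcases hU with ⟨k, A, hk, hA, h1, h2, h4⟩ | ⟨r, hr, hrk, hE⟩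
    · have hAE := ncard_le_ncard hA M.ground_finite
      refine ⟨by omega, k, A, hk, h1, h2, hA, ?_, fun B hB hBc => (h4 B hB).2 hBc.le⟩
      obtain ⟨I, hI⟩ := M.exists_isBasis A hA
      have hIf := fin_of I hI.indep.subset_ground
      have h5 : rk M A = I.ncard := by
        rw [← (indep_iff_rk hIf).1 hI.indep, rk, rk, hI.eRk_eq_eRk]
      have h6 := (h4 I hI.subset).1 hI.indep
      obtain ⟨B, hB, hBc⟩ := exists_subset_card_eq (s := A) (n := k) (by omega)
      have h7 := indep_ncard_le ((h4 B hB).2 hBc.le) hB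
      omega
    · have h4 : 4 ≤ M.E.ncard := by
        refine le_trans ?_ hE
        calc 4 = 2 ^ 2 := by norm_num
          _ ≤ 2 ^ (r ^ 2) := Nat.pow_le_pow_right (by norm_num) (by nlinarith)
      refine ⟨h4, exists_unif (fun e he => tc_loopless h3 (by omega) he)
        (fun e he f hf hef => tc_pair h3 h4 he hf hef) r M.E subset_rfl ?_ hE⟩
      have h5 : (rk M M.E : ℕ∞) = r := by rw [cast_rk, ← Matroid.eRank_def, hrk]
      exact le_of_eq (by exact_mod_cast h5)
  obtain ⟨hE4, k, A, hk, hc, hc', hA⟩ := hU'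
  obtain ⟨F, hAF, hF, hFcl⟩ := hA.exists_flat hM (fun e he => tc_loopless h3 (by omega) he)
    (by omega) hc hc'
  have hFc : A.ncard ≤ F.ncard := ncard_le_ncard hAF (fin_of F hF.sub)
  have hB : Big M k F := ⟨hM, hF, hFcl, hk, by omega, by omega⟩
  have hFE := flat_eq_ground hB h3
  rw [hFE] at hF
  exact hF.uniformType

end

end Pool.Agent.helper9.HB49
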