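import Pool.Agent.helper9.HB49.Big.Cont

set_option autoImplicit false

/-! # A connected set of nullity two in the contraction is dependent -/

open Set Matroid

namespace Pool.Agent.helper9.HB49

variable {α : Type*} {M : Matroid α} [M.Finite] {k : ℕ} {F : Set α}

theorem Theta (h : Big M k F) {X : Set α} (hX : M.Indep X) (hXF : Disjoint X F) {C D : Set α}
    (hC : (M ／ F).IsCircuit C) (hD : (M ／ F).IsCircuit D) (hne : C ≠ D)
    (hint : (C ∩ D).Nonempty) (hXe : X = C ∪ D) (hX2 : nl (M ／ F) X = 2) : False := by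
  classical
  have hk := h.hk
  have hXE := hX.subset_ground
  have hXN : X ⊆ (M ／ F).E := by
    rw [contract_ground]
    exact subset_sdiff.2 ⟨hXE, hXF⟩
  have hCX : C ⊆ X := hXe ▸ subset_union_left
  have hDX : D ⊆ X := hXe ▸ subset_union_right
  have hX1 : ∀ x ∈ X, nl (M ／ F) (X \ {x}) = 1 := by
    intro x hx
    have h1 : x ∈ (M ／ F).closure (X \ {x}) := by
      have hx' : x ∈ C ∪ D := hXe ▸ hx
      rcases hx' with hx' | hx'
      · exact (M ／ F).closure_subset_closure (sdiff_subset_sdiff_left hCX)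
          (hC.mem_closure_sdiff_singleton_of_mem hx')
      · exact (M ／ F).closure_subset_closure (sdiff_subset_sdiff_left hDX)
          (hD.mem_closure_sdiff_singleton_of_mem hx')
    have h2 := nl_sdiff_of_mem_closure hXN hx h1
    omega
  obtain ⟨XF, hXF'⟩ : ∃ XF : Finset α, X = XF := ⟨(fin_of X hXE).toFinset, by simp⟩
  have hmX : ∀ e, e ∈ XF ↔ e ∈ X := fun e => by rw [hXF', Finset.mem_coe]
  set 𝒞 : Finset (Finset α) := XF.powerset.filter fun C₁ => (M ／ F).IsCircuit (C₁ : Set α) with h𝒞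
  have hm𝒞 : ∀ C₁ : Finset α, C₁ ∈ 𝒞 ↔ (C₁ : Set α) ⊆ X ∧ (M ／ F).IsCircuit (C₁ : Set α) := by
    intro C₁
    rw [h𝒞, Finset.mem_filter, Finset.mem_powerset, hXF', Finset.coe_subset]
  have hto : ∀ C₁ : Set α, C₁ ⊆ X → (M ／ F).IsCircuit C₁ → ∃ C₂ ∈ 𝒞, (C₂ : Set α) = C₁ := by
    intro C₁ h1 h2
    refine ⟨((fin_of X hXE).subset h1).toFinset, (hm𝒞 _).2 ?_, by simp⟩
    simp only [Finite.coe_toFinset]
    exact ⟨h1, h2⟩
  have hun : ∀ x ∈ X, ∀ C₁ ∈ 𝒞, ∀ C₂ ∈ 𝒞, x ∉ C₁ → x ∉ C₂ → C₁ = C₂ := by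
    intro x hx C₁ h₁ C₂ h₂ hx1 hx2
    by_contra hcon
    have h3 := two_le_nl (M := M ／ F) (Y := X \ {x}) (sdiff_subset.trans hXN)
      ((hm𝒞 C₁).1 h₁).2 ((hm𝒞 C₂).1 h₂).2 (fun h => hcon (Finset.coe_injective h))
      (fun f hf => ⟨((hm𝒞 C₁).1 h₁).1 hf, fun h => hx1 (Finset.mem_coe.1 (h ▸ hf))⟩)
      (fun f hf => ⟨((hm𝒞 C₂).1 h₂).1 hf, fun h => hx2 (Finset.mem_coe.1 (h ▸ hf))⟩)
    rw [hX1 x hx] at h3
    omega
  have hex : ∀ x ∈ X, ∃ C₁ ∈ 𝒞, x ∉ C₁ := by
    intro x hx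
    obtain ⟨C₁, h1, h2⟩ := exists_circuit_of_nl (M := M ／ F) (Y := X \ {x})
      (sdiff_subset.trans hXN) (by rw [hX1 x hx])
    obtain ⟨C₂, h3, h4⟩ := hto C₁ (h2.trans sdiff_subset) h1
    refine ⟨C₂, h3, fun h5 => ?_⟩
    have h6 : x ∈ C₁ := h4 ▸ Finset.mem_coe.2 h5
    exact (h2 h6).2 rfl
  have hpne : ∀ C₁ ∈ 𝒞, ∃ x, x ∈ X ∧ x ∉ C₁ := by
    intro C₁ h₁
    by_contra hcon
    push Not at hcon
    have h2 := (hm𝒞 C₁).1 h₁
    have h3 : C = C₁ := hC.eq_of_subset_isCircuit h2.2 fun f hf => Finset.mem_coe.2 (hcon f (hCX hf))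
    have h4 : D = C₁ := hD.eq_of_subset_isCircuit h2.2 fun f hf => Finset.mem_coe.2 (hcon f (hDX hf))
    exact hne (h3.trans h4.symm)
  have : Nonempty α := ⟨hint.some⟩
  choose! p hpX hp using hpne
  obtain ⟨Cf, hCf, hCf'⟩ := hto C hCX hC
  obtain ⟨Df, hDf, hDf'⟩ := hto D hDX hD
  have hm3 : 3 ≤ 𝒞.card := by
    obtain ⟨x, hxC, hxD⟩ := hint
    obtain ⟨Ef, hEf, hxE⟩ := hex x (hCX hxC)
    have h1 : Cf ≠ Df := fun h => hne (by rw [← hCf', ← hDf', h])
    have h2 : Cf ≠ Ef := fun h => hxE (h ▸ Finset.mem_coe.1 (hCf'.symm ▸ hxC))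
    have h3 : Df ≠ Ef := fun h => hxE (h ▸ Finset.mem_coe.1 (hDf'.symm ▸ hxD))
    have h4 : ({Cf, Df, Ef} : Finset (Finset α)) ⊆ 𝒞 := by
      intro c hc
      simp only [Finset.mem_insert, Finset.mem_singleton] at hc
      rcases hc with rfl | rfl | rfl <;> assumption
    have h5 := Finset.card_le_card h4
    rwa [Finset.card_eq_three.2 ⟨Cf, Df, Ef, h1, h2, h3, rfl⟩] at h5
  -- a `k`-subset of `F`
  have hFf := fin_of F h.unif.sub
  obtain ⟨G, hG⟩ : ∃ G : Finset α, F = G := ⟨hFf.toFinset, by simp⟩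
  have hc := h.hc
  rw [hG, Set.ncard_coe_finset] at hc
  obtain ⟨A, hAG, hAc⟩ := Finset.exists_subset_card_eq (s := G) (n := k) (by omega)
  have hAF : (A : Set α) ⊆ F := by rw [hG]; exact Finset.coe_subset.2 hAG
  have hAX : ∀ a ∈ A, a ∉ X := fun a ha haX => Set.disjoint_left.1 hXF haX
    (hAF (Finset.mem_coe.2 ha))
  have hXA : ∀ x ∈ X, x ∉ A := fun x hx hxA => hAX x hxA hx
  set S : Finset α := XF ∪ A with hS
  have hSs : (S : Set α) = X ∪ A := by rw [hS, Finset.coe_union, hXF']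
  have hT3 : ∀ C₁ ∈ 𝒞, (∀ B ⊆ F, B.ncard = k → M.IsCircuit ((C₁ : Set α) ∪ B)) ∧
      ∀ D, M.IsCircuit D → D \ F = C₁ → (D ∩ F).ncard = k := fun C₁ h₁ =>
    T3 h ((hm𝒞 C₁).1 h₁).2 (hX.subset ((hm𝒞 C₁).1 h₁).1)
  have hT4 := T4 h hX hXF hX2 (fun x hx => (hX1 x hx).le)
  set q : ℕ := 𝒞.card + k - 1 with hq
  -- the weight
  set ω : α → ZMod q := fun e => (if e ∈ A then 1 else 0) + ∑ C₁ ∈ 𝒞, if p C₁ = e then 1 else 0
    with hω
  have hsum : ∀ T : Set α, ∑ e ∈ S, ((chi ℤ T e : ℤ) : ZMod q) * ω e =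
      (((A.filter fun e => e ∈ T).card + (𝒞.filter fun C₁ => p C₁ ∈ T).card : ℕ) : ZMod q) := by
    intro T
    have h1 : ∀ e ∈ S, ((chi ℤ T e : ℤ) : ZMod q) * ω e = (if e ∈ A then (if e ∈ T then 1 else 0)
        else 0) + ∑ C₁ ∈ 𝒞, if p C₁ = e then (if e ∈ T then 1 else 0) else 0 := by
      intro e _
      rw [chi_apply, hω]
      by_cases he : e ∈ T
      · simp [he]
      · simp [he]
    rw [Finset.sum_congr rfl h1, Finset.sum_add_distrib, Finset.sum_comm]
    have h2 : ∑ e ∈ S, (if e ∈ A then (if e ∈ T then (1 : ZMod q) else 0) else 0) =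
        ((A.filter fun e => e ∈ T).card : ZMod q) := by
      rw [Finset.sum_ite_mem, Finset.inter_eq_right.2 Finset.subset_union_right,
        Finset.sum_boole]
    have h3 : ∀ C₁ ∈ 𝒞, ∑ e ∈ S, (if p C₁ = e then (if e ∈ T then (1 : ZMod q) else 0) else 0) =
        if p C₁ ∈ T then 1 else 0 := by
      intro C₁ h₁
      rw [Finset.sum_ite_eq, if_pos]
      exact Finset.mem_union_left _ ((hmX _).2 (hpX C₁ h₁))
    rw [h2, Finset.sum_congr rfl h3, Finset.sum_boole]
    push_cast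
    rfl
  have hqz : ((q : ℕ) : ZMod q) = 0 := ZMod.natCast_self q
  have hcirc : ∀ T : Set α, M.IsCircuit T → T ⊆ S →
      ∑ e ∈ S, ((chi ℤ T e : ℤ) : ZMod q) * ω e = 0 := by
    intro T hT hTS
    rw [hSs] at hTS
    rw [hsum]
    obtain ⟨h1, h2, h3⟩ := trace_dep h hAF (by rw [Set.ncard_coe_finset]; omega) hXF hT hTS
    by_cases hn : nl (M ／ F) (T \ F) ≤ 1
    · have h4 := trace_circuit h hT h1 hn
      obtain ⟨C₀, hC₀, hC₀'⟩ := hto _ h2 h4
      have h5 := (hT3 C₀ hC₀).2 T hT hC₀'.symm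
      have h6 : (A.filter fun e => e ∈ T) = A := by
        apply Finset.filter_true_of_mem
        have h7 : T ∩ F = A := eq_of_subset_of_ncard_le h3
          (by rw [Set.ncard_coe_finset, hAc, h5]) A.finite_toSet
        intro e he
        have : e ∈ T ∩ F := h7 ▸ Finset.mem_coe.2 he
        exact this.1
      have h7 : (𝒞.filter fun C₁ => p C₁ ∈ T) = 𝒞.erase C₀ := by
        ext C₁
        rw [Finset.mem_filter, Finset.mem_erase]
        constructor
        · rintro ⟨h8, h9⟩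
          refine ⟨?_, h8⟩
          rintro rfl
          have h10 : p C₁ ∈ T \ F := ⟨h9, fun h => Set.disjoint_left.1 hXF (hpX C₁ h8) h⟩
          rw [← hC₀'] at h10
          exact hp C₁ h8 (Finset.mem_coe.1 h10)
        · rintro ⟨h8, h9⟩
          refine ⟨h9, ?_⟩
          by_contra h10
          refine h8 (hun (p C₁) (hpX C₁ h9) C₁ h9 C₀ hC₀ (hp C₁ h9) fun h11 => h10 ?_)
          have h12 : p C₁ ∈ T \ F := hC₀' ▸ Finset.mem_coe.2 h11
          exact h12.1
      rw [h6, h7, Finset.card_erase_of_mem hC₀, hAc, ← hqz]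
      congr 1
      omega
    · have h4 : T \ F = X := by
        by_contra hcon
        obtain ⟨x, hxX, hxT⟩ := exists_of_ssubset (h2.ssubset_of_ne hcon)
        have h5 : T \ F ⊆ X \ {x} := fun f hf => ⟨h2 hf, fun h => hxT (h ▸ hf)⟩
        have h6 := nl_mono (M := M ／ F) h5 (sdiff_subset.trans hXN)
        rw [hX1 x hxX] at h6
        exact hn h6
      have h5 := hT4.2 T hT h4
      have h6 : (A.filter fun e => e ∈ T).card = k - 1 := by
        rw [← h5, ← Set.ncard_coe_finset]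
        congr 1
        ext e
        simp only [Finset.coe_filter, mem_ofPred_eq, mem_inter_iff]
        constructor
        · rintro ⟨h7, h8⟩
          exact ⟨h8, hAF (Finset.mem_coe.2 h7)⟩
        · rintro h7
          exact ⟨Finset.mem_coe.1 (h3 h7), h7.1⟩
      have h7 : (𝒞.filter fun C₁ => p C₁ ∈ T) = 𝒞 := by
        apply Finset.filter_true_of_mem
        intro C₁ h₁
        have : p C₁ ∈ T \ F := h4.symm ▸ hpX C₁ h₁
        exact this.1
      rw [h6, h7, ← hqz]
      congr 1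
      omega
  -- the vector
  obtain ⟨a, ha⟩ : A.Nonempty := Finset.card_pos.1 (by omega)
  have haF : a ∈ F := hAF (Finset.mem_coe.2 ha)
  have hz := h.unif.mul_mem h.hc haF
  -- circuits used for the span
  have hcB : ∀ b ∈ A, M.IsCircuit (X ∪ ((A.erase b : Finset α) : Set α)) := by
    intro b hb
    refine hT4.1 _ ((Finset.coe_subset.2 (Finset.erase_subset _ _)).trans hAF) ?_
    rw [Set.ncard_coe_finset, Finset.card_erase_of_mem hb, hAc]
  have hcC : ∀ C₁ ∈ 𝒞, M.IsCircuit ((C₁ : Set α) ∪ (A : Set α)) := fun C₁ h₁ =>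
    (hT3 C₁ h₁).1 _ hAF (by rw [Set.ncard_coe_finset, hAc])
  set Sp := Submodule.span ℚ {p : α → ℚ | ∃ C : Set α, M.IsCircuit C ∧ C ⊆ S ∧ p = chi ℚ C} with hSp
  have hspB : ∀ b ∈ A, chi ℚ (X ∪ ((A.erase b : Finset α) : Set α)) ∈ Sp := fun b hb =>
    Submodule.subset_span ⟨_, hcB b hb, by
      rw [hSs]
      exact union_subset_union_right _ (Finset.coe_subset.2 (Finset.erase_subset _ _)), rfl⟩
  have hspC : ∀ C₁ ∈ 𝒞, chi ℚ ((C₁ : Set α) ∪ (A : Set α)) ∈ Sp := fun C₁ h₁ =>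
    Submodule.subset_span ⟨_, hcC C₁ h₁, by
      rw [hSs]
      exact union_subset_union_left _ ((hm𝒞 C₁).1 h₁).1, rfl⟩
  have hq0 : (q : ℚ) ≠ 0 := by
    have : 0 < q := by omega
    exact_mod_cast this.ne'
  have hqc : (q : ℚ) = 𝒞.card + k - 1 := by
    rw [hq, Nat.cast_sub (by omega)]
    push_cast
    ring
  have hS' : chi ℚ (S : Set α) = (1 / (q : ℚ)) • (∑ C₁ ∈ 𝒞, chi ℚ ((C₁ : Set α) ∪ (A : Set α)) +
      ∑ b ∈ A, chi ℚ (X ∪ ((A.erase b : Finset α) : Set α))) := by
    funext e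
    rw [Pi.smul_apply, Pi.add_apply, Finset.sum_apply, Finset.sum_apply, smul_eq_mul]
    by_cases heX : e ∈ X
    · have heA := hXA e heX
      have h1 : ∑ C₁ ∈ 𝒞, chi ℚ ((C₁ : Set α) ∪ (A : Set α)) e = 𝒞.card - 1 := by
        obtain ⟨C₀, hC₀, heC₀⟩ := hex e heX
        rw [← Finset.add_sum_erase 𝒞 _ hC₀, chi_apply_notMem (by simp [heC₀, heA]), zero_add]
        rw [Finset.sum_congr rfl (g := fun _ => (1 : ℚ))]
        · rw [Finset.sum_const, Finset.card_erase_of_mem hC₀, nsmul_eq_mul, mul_one,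
            Nat.cast_sub (by omega)]
          simp
        · intro C₁ h₁
          rw [Finset.mem_erase] at h₁
          refine chi_apply_mem (Or.inl ?_)
          by_contra hcon
          exact h₁.1 (hun e heX C₁ h₁.2 C₀ hC₀ (fun h => hcon (Finset.mem_coe.2 h)) heC₀)
      have h2 : ∑ b ∈ A, chi ℚ (X ∪ ((A.erase b : Finset α) : Set α)) e = k := by
        rw [Finset.sum_congr rfl (g := fun _ => (1 : ℚ))]
        · rw [Finset.sum_const, hAc, nsmul_eq_mul, mul_one]
        · intro b _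
          exact chi_apply_mem (Or.inl heX)
      rw [h1, h2, chi_apply_mem (by rw [hSs]; exact Or.inl heX)]
      have h3 : (𝒞.card : ℚ) - 1 + k = q := by rw [hqc]; ring
      rw [h3]
      field_simp
    · by_cases heA : e ∈ A
      · have h1 : ∑ C₁ ∈ 𝒞, chi ℚ ((C₁ : Set α) ∪ (A : Set α)) e = 𝒞.card := by
          rw [Finset.sum_congr rfl (g := fun _ => (1 : ℚ))]
          · rw [Finset.sum_const, nsmul_eq_mul, mul_one]
          · intro C₁ _
            exact chi_apply_mem (Or.inr (Finset.mem_coe.2 heA))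
        have h2 : ∑ b ∈ A, chi ℚ (X ∪ ((A.erase b : Finset α) : Set α)) e = k - 1 := by
          rw [← Finset.add_sum_erase A _ heA, chi_apply_notMem (by simp [heX]), zero_add]
          rw [Finset.sum_congr rfl (g := fun _ => (1 : ℚ))]
          · rw [Finset.sum_const, Finset.card_erase_of_mem heA, nsmul_eq_mul, mul_one, hAc,
              Nat.cast_sub (by omega)]
            simp
          · intro b hb
            rw [Finset.mem_erase] at hb
            refine chi_apply_mem (Or.inr ?_)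
            simp [heA, Ne.symm hb.1]
        rw [h1, h2, chi_apply_mem (by rw [hSs]; exact Or.inr (Finset.mem_coe.2 heA))]
        have h3 : (𝒞.card : ℚ) + (k - 1) = q := by rw [hqc]; ring
        rw [h3]
        field_simp
      · rw [chi_apply_notMem (by rw [hSs]; rintro (h | h); exacts [heX h, heA h]),
          Finset.sum_eq_zero, Finset.sum_eq_zero]
        · simp
        · intro b _
          refine chi_apply_notMem ?_
          rintro (h | h)
          · exact heX h
          · exact heA (Finset.mem_of_mem_erase (Finset.mem_coe.1 h))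
        · intro C₁ h₁
          refine chi_apply_notMem ?_
          rintro (h | h)
          · exact heX (((hm𝒞 C₁).1 h₁).1 h)
          · exact heA (Finset.mem_coe.1 h)
  have hspS : chi ℚ (S : Set α) ∈ Sp := by
    rw [hS']
    exact Submodule.smul_mem _ _ (add_mem (sum_mem hspC) (sum_mem hspB))
  have hspa : chi ℚ ({a} : Set α) ∈ Sp := by
    have e1 : chi ℚ ({a} : Set α) = chi ℚ (S : Set α) -
        chi ℚ (X ∪ ((A.erase a : Finset α) : Set α)) := by
      have h1 : (S : Set α) = insert a (X ∪ ((A.erase a : Finset α) : Set α)) := by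
        rw [hSs]
        ext e
        simp only [mem_union, Finset.mem_coe, mem_insert_iff, Finset.mem_erase]
        constructor
        · rintro (h | h)
          · exact Or.inr (Or.inl h)
          · by_cases hea : e = a
            · exact Or.inl hea
            · exact Or.inr (Or.inr ⟨hea, h⟩)
        · rintro (rfl | h | h)
          · exact Or.inr ha
          · exact Or.inl h
          · exact Or.inr h.2
      rw [h1, chi_insert (by simp [hAX a ha])]
      abel
    rw [e1]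
    exact sub_mem hspS (hspB a ha)
  have hfin := key h.hM S (k := q) ω hcirc hz (by
    have e1 : (fun e => (((((k + 1 : ℕ) : ℤ) • chi ℤ ({a} : Set α)) e : ℤ) : ℚ)) =
        ((k + 1 : ℕ) : ℚ) • chi ℚ ({a} : Set α) := by
      funext e
      rw [Pi.smul_apply, Pi.smul_apply, smul_eq_mul, smul_eq_mul, Int.cast_mul, cast_chi]
      push_cast
      rfl
    rw [e1]
    exact Submodule.smul_mem _ _ hspa)
  have haS : a ∈ S := Finset.mem_union_right _ ha
  rw [Finset.sum_eq_single_of_mem a haS] at hfin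
  · have h1 : ω a = 1 := by
      rw [hω]
      simp only [ha, if_true]
      rw [Finset.sum_eq_zero, add_zero]
      intro C₁ h₁
      rw [if_neg]
      intro h2
      exact hAX a ha (h2 ▸ hpX C₁ h₁)
    rw [h1, Pi.smul_apply, chi_apply_mem (mem_singleton a), mul_one, smul_eq_mul, mul_one] at hfin
    have h2 : ((k + 1 : ℕ) : ZMod q) = 0 := by exact_mod_cast hfin
    rw [ZMod.natCast_eq_zero_iff] at h2
    have h3 := Nat.le_of_dvd (by omega) h2
    omega
  · intro e _ hea
    rw [Pi.smul_apply, chi_apply_notMem (by simpa using hea), smul_zero]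
    simp

end Pool.Agent.helper9.HB49
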