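import Pool.Agent.helper9.HB49.Big.Design
import Pool.Agent.helper9.HB49.Types

set_option autoImplicit false

/-! # Uniform restrictions -/

open Set

namespace Pool.Agent.helper9.HB49

variable {α : Type*} {M : Matroid α}

/-- `M` restricted to `A` is a uniform matroid of rank `k` (with at least `k` elements) -/
structure UnifOn (M : Matroid α) (k : ℕ) (A : Set α) : Prop where
  sub : A ⊆ M.E
  rk_eq : rk M A = k
  ind : ∀ B ⊆ A, B.ncard = k → M.Indep B

section

variable [M.Finite]

theorem fin_of (A : Set α) (hA : A ⊆ M.E) : A.Finite := M.ground_finite.subset hA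

theorem indep_ncard_le {I A : Set α} (hI : M.Indep I) (hIA : I ⊆ A) : I.ncard ≤ rk M A := by
  rw [← (indep_iff_rk (fin_of I hI.subset_ground)).1 hI]
  exact rk_mono hIA

theorem UnifOn.ind' {k : ℕ} {A : Set α} (h : UnifOn M k A) {B : Set α} (hB : B ⊆ A)
    (hc : B.ncard ≤ k) : M.Indep B := by
  have hAf := fin_of A h.sub
  have hBf : B.Finite := hAf.subset hB
  have hkA : k ≤ A.ncard := by
    rw [← h.rk_eq]
    exact rk_le_ncard hAf
  obtain ⟨B', hBB', hB'A, hB'⟩ := exists_subsuperset_card_eq hB hc hkA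
  exact (h.ind B' hB'A hB').subset hBB'

theorem UnifOn.indep_iff {k : ℕ} {A : Set α} (h : UnifOn M k A) {B : Set α} (hB : B ⊆ A) :
    M.Indep B ↔ B.ncard ≤ k := by
  refine ⟨fun hI => ?_, h.ind' hB⟩
  rw [← h.rk_eq]
  exact indep_ncard_le hI hB

theorem UnifOn.circuit {k : ℕ} {A : Set α} (h : UnifOn M k A) {B : Set α} (hB : B ⊆ A)
    (hc : B.ncard = k + 1) : M.IsCircuit B := by
  have hBf : B.Finite := (fin_of A h.sub).subset hB
  refine isCircuit_of (hB.trans h.sub) hBf ?_ fun e he => ?_
  · have := rk_mono (M := M) hB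
    rw [h.rk_eq] at this
    omega
  · refine h.ind' (sdiff_subset.trans hB) ?_
    rw [ncard_sdiff_singleton_of_mem he, hc]
    omega

theorem UnifOn.mono {k : ℕ} {A A' : Set α} (h : UnifOn M k A) (hA' : A' ⊆ A)
    (hc : k ≤ A'.ncard) : UnifOn M k A' := by
  refine ⟨hA'.trans h.sub, ?_, fun B hB => h.ind B (hB.trans hA')⟩
  have h1 := rk_mono (M := M) hA'
  rw [h.rk_eq] at h1
  obtain ⟨B, hB, hBc⟩ := exists_subset_card_eq hc
  have h2 := indep_ncard_le (h.ind B (hB.trans hA') hBc) hB
  omega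

theorem UnifOn.diff_mem {k : ℕ} {A : Set α} (h : UnifOn M k A) (hc : k + 2 ≤ A.ncard) {a b : α}
    (ha : a ∈ A) (hb : b ∈ A) : chi ℤ ({a} : Set α) - chi ℤ ({b} : Set α) ∈ Lat M := by
  by_cases hab : a = b
  · subst hab
    rw [sub_self]
    exact zero_mem _
  have hAf := fin_of A h.sub
  have h1 : k ≤ (A \ {a, b}).ncard := by
    rw [ncard_sdiff (by rintro f (rfl | rfl) <;> assumption) (by simp), ncard_pair hab]
    omega
  obtain ⟨B, hB, hBc⟩ := exists_subset_card_eq h1
  have haB : a ∉ B := fun h => (hB h).2 (by simp)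
  have hbB : b ∉ B := fun h => (hB h).2 (by simp)
  have hBA : B ⊆ A := hB.trans sdiff_subset
  have hBf : B.Finite := hAf.subset hBA
  have c1 := h.circuit (B := insert a B) (insert_subset ha hBA)
    (by rw [ncard_insert_of_notMem haB hBf, hBc])
  have c2 := h.circuit (B := insert b B) (insert_subset hb hBA)
    (by rw [ncard_insert_of_notMem hbB hBf, hBc])
  have e1 : chi ℤ ({a} : Set α) - chi ℤ ({b} : Set α) =
      chi ℤ (insert a B) - chi ℤ (insert b B) := by
    rw [chi_insert haB, chi_insert hbB]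
    abel
  rw [e1]
  exact sub_mem (chi_mem_lat c1) (chi_mem_lat c2)

theorem UnifOn.mul_mem {k : ℕ} {A : Set α} (h : UnifOn M k A) (hc : k + 2 ≤ A.ncard) {a : α}
    (ha : a ∈ A) : ((k + 1 : ℕ) : ℤ) • chi ℤ ({a} : Set α) ∈ Lat M := by
  classical
  have hAf := fin_of A h.sub
  obtain ⟨B, hB, hBc⟩ := exists_subset_card_eq (s := A) (n := k + 1) (by omega)
  have hBf : B.Finite := hAf.subset hB
  have c1 := h.circuit hB hBc
  have e1 : ((k + 1 : ℕ) : ℤ) • chi ℤ ({a} : Set α) = chi ℤ B +
      ∑ b ∈ hBf.toFinset, (chi ℤ ({a} : Set α) - chi ℤ ({b} : Set α)) := by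
    rw [Finset.sum_sub_distrib, Finset.sum_const, ← ncard_eq_toFinset_card B hBf, hBc]
    have h2 : ∑ b ∈ hBf.toFinset, chi ℤ ({b} : Set α) = chi ℤ B := by
      funext e
      rw [Finset.sum_apply, chi_apply]
      simp only [chi_apply, mem_singleton_iff]
      rw [Finset.sum_ite_eq]
      simp
    rw [h2, natCast_zsmul]
    abel
  rw [e1]
  refine add_mem (chi_mem_lat c1) (sum_mem fun b hb => h.diff_mem hc ha (hB ?_))
  simpa using hb

/-- the entries of a lattice vector supported on a uniform restriction sum up to a multiple of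
`k + 1` -/
theorem unif_mod (hM : CircuitsHilbert M) {k : ℕ} {A : Finset α} (h : UnifOn M k (A : Set α))
    (hc : k + 2 ≤ A.card) {z : α → ℤ} (hz : z ∈ Lat M) (hs : ∀ e ∉ A, z e = 0) :
    ((k + 1 : ℕ) : ℤ) ∣ ∑ e ∈ A, z e := by
  classical
  have hc' : k + 2 ≤ (A : Set α).ncard := by rwa [Set.ncard_coe_finset]
  obtain ⟨S, hSA, hSc⟩ := Finset.exists_subset_card_eq hc
  obtain ⟨s, hs'⟩ : S.Nonempty := Finset.card_pos.1 (by omega)
  have hSA' : (S : Set α) ⊆ A := Finset.coe_subset.2 hSA
  have hz' : (∑ e ∈ A, z e) • chi ℤ ({s} : Set α) ∈ Lat M := by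
    have e1 : (∑ e ∈ A, z e) • chi ℤ ({s} : Set α) = z +
        ∑ e ∈ A, z e • (chi ℤ ({s} : Set α) - chi ℤ ({e} : Set α)) := by
      simp only [smul_sub]
      rw [Finset.sum_sub_distrib, ← Finset.sum_smul]
      have h2 : ∑ e ∈ A, z e • chi ℤ ({e} : Set α) = z := by
        funext f
        rw [Finset.sum_apply]
        simp only [Pi.smul_apply, chi_apply, mem_singleton_iff, smul_eq_mul, mul_ite, mul_one,
          mul_zero]
        rw [Finset.sum_ite_eq]
        split_ifs with hf
        · rfl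
        · exact (hs f hf).symm
      rw [h2]
      abel
    rw [e1]
    refine add_mem hz (sum_mem fun e he => zsmul_mem ?_ _)
    exact h.diff_mem hc' (hSA' (Finset.mem_coe.2 hs')) (Finset.mem_coe.2 he)
  have h1 := unif_key hM S (k + 1) (by rw [hSc]) (hSA'.trans h.sub)
    (fun X hX hXn => h.ind' (hX.trans hSA') (by omega))
    (by
      have := rk_mono (M := M) hSA'
      rw [h.rk_eq] at this
      omega) hz' (fun e he => by
      rw [Pi.smul_apply, chi_apply_notMem, smul_zero]
      rintro rfl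
      exact he hs')
  have h2 : ∑ e ∈ S, ((∑ e ∈ A, z e) • chi ℤ ({s} : Set α)) e = ∑ e ∈ A, z e := by
    rw [Finset.sum_eq_single s]
    · rw [Pi.smul_apply, chi_apply_mem (mem_singleton s), smul_eq_mul, mul_one]
    · intro f _ hf
      rw [Pi.smul_apply, chi_apply_notMem (by simpa using hf), smul_zero]
    · intro h
      exact absurd hs' h
  rwa [h2] at h1

/-- the number of elements of a finite set in terms of `chi` -/
theorem sum_chi_coe (F : Finset α) {C : Set α} (hC : C ⊆ F) :
    ∑ e ∈ F, chi ℤ C e = (C.ncard : ℤ) := by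
  rw [sum_chi, inter_eq_left.2 hC]

/-- a uniform restriction with many elements spans a flat whose restriction is uniform -/
theorem UnifOn.exists_flat (hM : CircuitsHilbert M) (hl : ∀ e ∈ M.E, rk M {e} = 1) {k : ℕ}
    {A : Set α} (h : UnifOn M k A) (hk : 1 ≤ k) (hc : k + 2 ≤ A.ncard)
    (hc' : 2 * k ≤ A.ncard + 1) :
    ∃ F, A ⊆ F ∧ UnifOn M k F ∧ M.closure F = F := by
  classical
  obtain ⟨F, ⟨hAF, hF⟩, hmax⟩ := exists_max (β := Set α) (fun F => F.ncard)
    (P := fun F => A ⊆ F ∧ UnifOn M k F) M.E.ncard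
    (fun F hF => ncard_le_ncard hF.2.sub M.ground_finite) ⟨A, subset_rfl, h⟩
  have hFf := fin_of F hF.sub
  refine ⟨F, hAF, hF, ?_⟩
  refine subset_antisymm ?_ (M.subset_closure F hF.sub)
  intro x hx
  by_contra hxF
  have hxE : x ∈ M.E := M.mem_ground_of_mem_closure hx
  have hFc : A.ncard ≤ F.ncard := ncard_le_ncard hAF hFf
  obtain ⟨G, rfl⟩ : ∃ G : Finset α, F = G := ⟨hFf.toFinset, by simp⟩
  rw [Set.ncard_coe_finset] at hFc
  -- closure of a `k`-subset
  have hcl : ∀ B : Set α, B ⊆ G → B.ncard = k → x ∈ M.closure B := by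
    intro B hB hBc
    have hBi := hF.ind B hB hBc
    by_contra hcon
    obtain ⟨h1, -⟩ := (hBi.notMem_closure_iff hxE).1 hcon
    have hxB : x ∉ B := fun h => hxF (hB h)
    have h2 : insert x B ⊆ M.closure (G : Set α) :=
      insert_subset hx (hB.trans (M.subset_closure _ hF.sub))
    have h3 := indep_ncard_le h1 h2
    have h4 : rk M (M.closure (G : Set α)) = rk M G := by rw [rk, rk, M.eRk_closure_eq]
    rw [h4, hF.rk_eq, ncard_insert_of_notMem hxB (hFf.subset hB)] at h3
    omega
  set p : Finset α → Prop := fun A' => M.IsCircuit (insert x (A' : Set α)) with hp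
  have hpn : ∀ A' ⊆ G, x ∉ A' := fun A' hA' h => hxF (Finset.mem_coe.2 (hA' h))
  have hex : ∀ B ⊆ G, B.card = k → ∃ A', A' ⊆ B ∧ p A' := by
    intro B hB hBc
    have hBi := hF.ind B (Finset.coe_subset.2 hB) (by rwa [Set.ncard_coe_finset])
    have hxB : x ∉ (B : Set α) := fun h => hxF (Finset.coe_subset.2 hB h)
    have h1 := hBi.fundCircuit_isCircuit (hcl B (Finset.coe_subset.2 hB)
      (by rwa [Set.ncard_coe_finset])) hxB
    have h2 := M.fundCircuit_subset_insert x (B : Set α)
    refine ⟨B.filter fun e => e ∈ M.fundCircuit x B, Finset.filter_subset _ _, ?_⟩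
    have h3 : insert x ((B.filter fun e => e ∈ M.fundCircuit x B : Finset α) : Set α) =
        M.fundCircuit x B := by
      ext e
      simp only [Finset.coe_filter, mem_insert_iff, mem_ofPred_eq]
      constructor
      · rintro (rfl | h4)
        · exact M.mem_fundCircuit _ _
        · exact h4.2
      · intro h4
        rcases h2 h4 with h5 | h5
        · exact Or.inl h5
        · exact Or.inr ⟨Finset.mem_coe.1 h5, h4⟩
    rw [hp]
    simp only
    rw [h3]
    exact h1
  have hun : ∀ B ⊆ G, B.card = k → ∀ A₁ A₂, A₁ ⊆ B → A₂ ⊆ B → p A₁ → p A₂ → A₁ = A₂ := by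
    intro B hB hBc A₁ A₂ hA₁ hA₂ hp₁ hp₂
    have hBi := hF.ind B (Finset.coe_subset.2 hB) (by rwa [Set.ncard_coe_finset])
    have h1 := hp₁.eq_fundCircuit_of_subset hBi (insert_subset_insert (Finset.coe_subset.2 hA₁))
    have h2 := hp₂.eq_fundCircuit_of_subset hBi (insert_subset_insert (Finset.coe_subset.2 hA₂))
    have h3 : insert x (A₁ : Set α) = insert x (A₂ : Set α) := h1.trans h2.symm
    ext e
    have hx1 := hpn A₁ (hA₁.trans hB)
    have hx2 := hpn A₂ (hA₂.trans hB)
    constructor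
    · intro he
      have : e ∈ insert x (A₂ : Set α) := h3 ▸ Or.inr (Finset.mem_coe.2 he)
      rcases this with h4 | h4
      · exact absurd (h4 ▸ he) hx1
      · exact Finset.mem_coe.1 h4
    · intro he
      have : e ∈ insert x (A₁ : Set α) := h3.symm ▸ Or.inr (Finset.mem_coe.2 he)
      rcases this with h4 | h4
      · exact absurd (h4 ▸ he) hx2
      · exact Finset.mem_coe.1 h4
  have hpc : ∀ A' ⊆ G, p A' → 1 ≤ A'.card ∧ A'.card ≤ k := by
    intro A' hA' hpA
    have hx' : x ∉ (A' : Set α) := hpn A' hA'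
    constructor
    · by_contra hcon
      have h0 : A' = ∅ := Finset.card_eq_zero.1 (by omega)
      subst h0
      have h1 := circuit_rk hpA
      simp only [Finset.coe_empty, insert_empty_eq, ncard_singleton] at h1
      have := hl x hxE
      omega
    · have h1 : M.Indep (A' : Set α) := hpA.ssubset_indep
        ⟨subset_insert _ _, fun h => hx' (h (mem_insert _ _))⟩
      have h2 := indep_ncard_le h1 (Finset.coe_subset.2 hA')
      rwa [hF.rk_eq, Set.ncard_coe_finset] at h2
  -- all of the same size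
  have hsame : ∀ A₁ ⊆ G, ∀ A₂ ⊆ G, p A₁ → p A₂ → A₁.card = A₂.card := by
    intro A₁ h₁ A₂ h₂ hp₁ hp₂
    have hx1 : x ∉ (A₁ : Set α) := hpn A₁ h₁
    have hx2 : x ∉ (A₂ : Set α) := hpn A₂ h₂
    have h3 : chi ℤ (A₁ : Set α) - chi ℤ (A₂ : Set α) ∈ Lat M := by
      have e1 : chi ℤ (A₁ : Set α) - chi ℤ (A₂ : Set α) =
          chi ℤ (insert x (A₁ : Set α)) - chi ℤ (insert x (A₂ : Set α)) := by
        rw [chi_insert hx1, chi_insert hx2]
        abel
      rw [e1]
      exact sub_mem (chi_mem_lat hp₁) (chi_mem_lat hp₂)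
    have h4 := unif_mod hM hF (by omega) h3 (fun e he => by
      rw [Pi.sub_apply, chi_apply_notMem (fun h => he (h₁ (Finset.mem_coe.1 h))),
        chi_apply_notMem (fun h => he (h₂ (Finset.mem_coe.1 h))), sub_zero])
    simp only [Pi.sub_apply, Finset.sum_sub_distrib] at h4
    rw [sum_chi_coe G (Finset.coe_subset.2 h₁), sum_chi_coe G (Finset.coe_subset.2 h₂),
      Set.ncard_coe_finset, Set.ncard_coe_finset] at h4
    have h5 := hpc A₁ h₁ hp₁
    have h6 := hpc A₂ h₂ hp₂
    have h7 := Int.eq_zero_of_abs_lt_dvd h4 (by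
      rw [abs_lt]
      constructor <;> push_cast <;> omega)
    omega
  -- some member
  obtain ⟨B₀, hB₀G, hB₀⟩ := Finset.exists_subset_card_eq (s := G) (n := k) (by omega)
  obtain ⟨A₀, hA₀B, hA₀⟩ := hex B₀ hB₀G hB₀
  have hA₀G := hA₀B.trans hB₀G
  have hi := hpc A₀ hA₀G hA₀
  have hik : A₀.card = k := by
    by_contra hcon
    exact no_design G hi.1 (lt_of_le_of_ne hi.2 hcon) (by omega) p
      (fun A' hA' hpA => hsame A' hA' A₀ hA₀G hpA hA₀) hex hun
  -- all the `k`-subsets with `x` are circuits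
  have hcirc : ∀ B ⊆ G, B.card = k → M.IsCircuit (insert x (B : Set α)) := by
    intro B hB hBc
    obtain ⟨A', hA'B, hpA⟩ := hex B hB hBc
    have h1 := hsame A' (hA'B.trans hB) A₀ hA₀G hpA hA₀
    have h2 : A' = B := Finset.eq_of_subset_of_card_le hA'B (by omega)
    rw [← h2]
    exact hpA
  -- contradiction with maximality
  have hnew : UnifOn M k (insert x (G : Set α)) := by
    refine ⟨insert_subset hxE hF.sub, ?_, ?_⟩
    · have h1 : insert x (G : Set α) ⊆ M.closure (G : Set α) :=
        insert_subset hx (M.subset_closure _ hF.sub)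
      have h2 := rk_mono (M := M) h1
      have h4 : rk M (M.closure (G : Set α)) = rk M G := by rw [rk, rk, M.eRk_closure_eq]
      have h5 := rk_mono (M := M) (subset_insert x (G : Set α))
      rw [hF.rk_eq] at h4 h5
      omega
    · intro B hB hBc
      by_cases hxB : x ∈ B
      · -- `B \ {x}` is a `(k-1)`-subset of `G`
        have hBf : B.Finite := (hFf.insert x).subset hB
        have h1 : B \ {x} ⊆ (G : Set α) := by
          rintro e ⟨he, hex'⟩
          exact (hB he).resolve_left hex'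
        have h1c : (B \ {x}).ncard = k - 1 := by rw [ncard_sdiff_singleton_of_mem hxB, hBc]
        obtain ⟨B', hBB', hB'G, hB'c⟩ := exists_subsuperset_card_eq (n := k) h1 (by omega)
          (by rw [Set.ncard_coe_finset]; omega)
        obtain ⟨B'', rfl⟩ : ∃ B'' : Finset α, B' = B'' := ⟨(hFf.subset hB'G).toFinset, by simp⟩
        have hc1 := hcirc B'' (Finset.coe_subset.1 hB'G) (by rwa [Set.ncard_coe_finset] at hB'c)
        refine indep_sub_circuit hc1 (fun e he => ?_) ?_
        · by_cases hex' : e = x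
          · exact Or.inl hex'
          · exact Or.inr (hBB' ⟨he, hex'⟩)
        · rw [ncard_insert_of_notMem (fun h => hxF (hB'G h)) (hFf.subset hB'G), hBc, hB'c]
          omega
      · refine hF.ind B (fun e he => (hB he).resolve_left ?_) hBc
        rintro rfl
        exact hxB he
  have h1 := hmax _ ⟨hAF.trans (subset_insert _ _), hnew⟩
  rw [ncard_insert_of_notMem hxF hFf] at h1
  omega

end

end Pool.Agent.helper9.HB49
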